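import Mathlib

set_option autoImplicit false
set_option linter.unusedSectionVars false
set_option linter.deprecated false

/-!
Moore's L space is hereditarily Grothendieck, so (in ZFC) a hereditarily Grothendieck space need
not be hereditarily separable.

Plan.
* `e`, `L`, `osc`: the function rho_1, the lower trace and the oscillation of Moore on omega_1.
* `w z β`: the points of the space, in the power of the circle with exponent omega_1; `kron` gives
  the independent circle points.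
* `UF`: maximal families of omega-closed subsets of a countably compact space `A`; `Gen`: generic
  pairs (ordinal, point of `A`), which replace elementary submodels.
* `GT`: the oscillation theorem of Moore along such a family.
* `hl`, `fcount`: the space is hereditarily Lindelof, and each countable family of continuous
  functions on a subspace is determined by a countable set.
* `no_gap`, `closed_of`: a countably compact set of continuous functions on a subspace is closed in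
  the space of all functions; `groth`: each subspace is Grothendieck.
-/

namespace Pool.Agent.Results.MP_b9a716_gt.MooreLSpace

open Filter Topology Set

universe u v

/-- `C_p(X)`: the continuous real functions on `X` with the topology of pointwise convergence. -/
abbrev Cp (X : Type u) [TopologicalSpace X] : Type u := {f : X → ℝ // Continuous f}

/-- `A` is countably compact in `Z`: each infinite subset of `A` has an accumulation point in `Z`. -/
def CountablyCompactIn {Z : Type u} [TopologicalSpace Z] (A : Set Z) : Prop :=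
  ∀ B : Set Z, B ⊆ A → B.Infinite → ∃ z : Z, AccPt z (𝓟 B)

/-- `Z` is a g-space: the closure of each subset that is countably compact in `Z` is compact. -/
def GSpace (Z : Type u) [TopologicalSpace Z] : Prop :=
  ∀ A : Set Z, CountablyCompactIn A → IsCompact (closure A)

/-- `X` is Grothendieck: every subspace of `C_p(X)` is a g-space. -/
def Grothendieck (X : Type u) [TopologicalSpace X] : Prop := ∀ S : Set (Cp X), GSpace S

/-- `X` is hereditarily Grothendieck: every subspace of `X` is Grothendieck. -/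
def HereditarilyGrothendieck (X : Type u) [TopologicalSpace X] : Prop :=
  ∀ S : Set X, Grothendieck S

/-- `X` is hereditarily separable: every subspace of `X` is separable. -/
def HereditarilySeparable (X : Type u) [TopologicalSpace X] : Prop :=
  ∀ S : Set X, TopologicalSpace.SeparableSpace S

section general

variable {Z : Type u} [TopologicalSpace Z]

theorem exists_mapClusterPt [T1Space Z] {A : Set Z} (hA : CountablyCompactIn A) (w : ℕ → Z)
    (hw : ∀ n, w n ∈ A) : ∃ z, MapClusterPt z atTop w := by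
  by_cases hfin : (Set.range w).Finite
  · have : ∃ z ∈ Set.range w, ∃ᶠ n in atTop, w n = z := by
      by_contra hcon
      push Not at hcon
      have h1 : ∀ᶠ n in atTop, ∀ z ∈ Set.range w, w n ≠ z :=
        (hfin.eventually_all).2 fun z hz => by simpa using hcon z hz
      obtain ⟨n, hn⟩ := h1.exists
      exact hn (w n) ⟨n, rfl⟩ rfl
    obtain ⟨z, -, hz⟩ := this
    refine ⟨z, mapClusterPt_iff_frequently.2 fun s hs => hz.mono fun n hn => ?_⟩
    rw [hn]
    exact mem_of_mem_nhds hs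
  · obtain ⟨z, hz⟩ := hA (Set.range w) (by rintro _ ⟨n, rfl⟩; exact hw n) hfin
    refine ⟨z, mapClusterPt_iff_frequently.2 fun s hs => ?_⟩
    rw [frequently_atTop]
    intro N
    rw [accPt_iff_frequently] at hz
    have hF : (((fun n => w n) '' (Set.Iio N)) \ {z}).Finite :=
      ((Set.finite_Iio N).image _).sdiff
    have h2 : (((fun n => w n) '' (Set.Iio N)) \ {z})ᶜ ∈ 𝓝 z :=
      hF.isClosed.isOpen_compl.mem_nhds (by simp)
    obtain ⟨y, ⟨hyz, n, rfl⟩, hys, hyF⟩ := (hz.and_eventually (inter_mem hs h2)).exists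
    refine ⟨n, ?_, hys⟩
    by_contra hlt
    push Not at hlt
    exact hyF ⟨⟨n, hlt, rfl⟩, hyz⟩

theorem countablyCompactIn_of_seq {A : Set Z}
    (h : ∀ w : ℕ → Z, (∀ n, w n ∈ A) → ∃ z, MapClusterPt z atTop w) :
    CountablyCompactIn A := by
  intro B hB hinf
  obtain ⟨w, hw⟩ : ∃ w : ℕ ↪ Z, ∀ n, w n ∈ B :=
    ⟨(hinf.natEmbedding B).trans (Function.Embedding.subtype _), fun n => (hinf.natEmbedding B n).2⟩
  obtain ⟨z, hz⟩ := h w (fun n => hB (hw n))
  refine ⟨z, accPt_iff_frequently.2 ?_⟩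
  rw [mapClusterPt_iff_frequently] at hz
  rw [frequently_iff]
  intro s hs
  have h1 := hz s hs
  have h2 : ∃ n, w n ∈ s ∧ w n ≠ z := by
    by_contra hcon
    push Not at hcon
    rw [frequently_atTop] at h1
    obtain ⟨a, -, ha⟩ := h1 0
    obtain ⟨b, hb, hb'⟩ := h1 (a + 1)
    have : w a = w b := (hcon a ha).trans (hcon b hb').symm
    have := w.injective this
    omega
  obtain ⟨n, hn, hn'⟩ := h2
  exact ⟨w n, hn, hn', hw n⟩

variable {X : Type v} {e : Z → X → ℝ}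

theorem cluster_eval {ι : Type*} {l : Filter ι} (he : Continuous e) {w : ι → Z} {z : Z}
    (h : MapClusterPt z l w) {x : X} {c : ℝ}
    (hc : Tendsto (fun i => e (w i) x) l (𝓝 c)) : e z x = c := by
  have h1 : MapClusterPt (e z x) l (fun i => e (w i) x) :=
    h.continuousAt_comp (f := fun f : Z => e f x)
      ((continuous_apply x).comp he).continuousAt
  have h2 : (𝓝 (e z x) ⊓ map (fun i => e (w i) x) l).NeBot := h1
  have h3 : (𝓝 (e z x) ⊓ 𝓝 c).NeBot := h2.mono (inf_le_inf_left _ hc)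
  exact eq_of_nhds_neBot h3

variable {A : Set Z}

theorem bounded (he : Continuous e)
    (hA : ∀ w : ℕ → Z, (∀ n, w n ∈ A) → ∃ z, MapClusterPt z atTop w) (x : X) :
    ∃ M : ℝ, ∀ f ∈ A, |e f x| ≤ M := by
  by_contra hcon
  push Not at hcon
  choose w hw hwx using fun n : ℕ => hcon n
  obtain ⟨z, hzc⟩ := hA w hw
  have h1 : MapClusterPt (e z x) atTop (fun i => e (w i) x) :=
    hzc.continuousAt_comp (f := fun f : Z => e f x)
      ((continuous_apply x).comp he).continuousAt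
  have h2 : ∀ᶠ y in 𝓝 (e z x), |y| < |e z x| + 1 :=
    (continuous_abs.tendsto (e z x)).eventually (gt_mem_nhds (by linarith))
  have h3 := h1.frequently h2
  obtain ⟨N, hN⟩ := exists_nat_gt (|e z x| + 1)
  have h4 : ∀ᶠ n : ℕ in atTop, ¬ |e (w n) x| < |e z x| + 1 := by
    filter_upwards [eventually_ge_atTop N] with n hn
    have : (N : ℝ) ≤ n := by exact_mod_cast hn
    have := hwx n
    linarith
  exact h3 h4

/-- a point of the pointwise closure of a relatively countably compact set agrees on every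
countable set with an element of the space -/
theorem countable_approx (he : Continuous e)
    (hA : ∀ w : ℕ → Z, (∀ n, w n ∈ A) → ∃ z, MapClusterPt z atTop w)
    {g : X → ℝ} (hg : g ∈ closure (e '' A)) {T : Set X} (hT : T.Countable) :
    ∃ z ∈ closure A, ∀ x ∈ T, e z x = g x := by
  by_cases hne : T.Nonempty
  · obtain ⟨t, ht⟩ := hT.exists_eq_range hne
    have key : ∀ n : ℕ, ∃ f ∈ A, ∀ i ≤ n, |e f (t i) - g (t i)| < 1 / ((n : ℝ) + 1) := by
      intro n
      have hopen : IsOpen {h : X → ℝ | ∀ i ∈ Finset.range (n + 1),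
          |h (t i) - g (t i)| < 1 / ((n : ℝ) + 1)} := by
        have : {h : X → ℝ | ∀ i ∈ Finset.range (n + 1),
          |h (t i) - g (t i)| < 1 / ((n : ℝ) + 1)} = ⋂ i ∈ Finset.range (n + 1),
          {h : X → ℝ | |h (t i) - g (t i)| < 1 / ((n : ℝ) + 1)} := by
          ext h; simp
        rw [this]
        exact isOpen_biInter_finset fun i _ => isOpen_lt (by fun_prop) continuous_const
      obtain ⟨h, hh, f, hf, rfl⟩ := mem_closure_iff.1 hg _ hopen (by
        intro i _; simp; positivity)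
      exact ⟨f, hf, fun i hi => hh i (Finset.mem_range.2 (Nat.lt_succ_of_le hi))⟩
    choose w hw hwx using key
    obtain ⟨z, hzc⟩ := hA w hw
    refine ⟨z, ?_, fun x hx => ?_⟩
    · refine mem_closure_iff_clusterPt.2 (ClusterPt.mono (show ClusterPt z (map w atTop) from hzc) ?_)
      exact tendsto_principal.2 (Eventually.of_forall hw)
    obtain ⟨i, rfl⟩ : x ∈ Set.range t := ht ▸ hx
    refine cluster_eval he hzc ?_
    rw [tendsto_iff_dist_tendsto_zero]
    refine squeeze_zero' (Eventually.of_forall fun n => dist_nonneg) ?_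
      (tendsto_one_div_add_atTop_nhds_zero_nat)
    filter_upwards [eventually_ge_atTop i] with n hn
    rw [Real.dist_eq]
    exact (hwx n i hn).le
  · rw [Set.not_nonempty_iff_eq_empty] at hne
    have : A.Nonempty := by
      by_contra hA'
      rw [Set.not_nonempty_iff_eq_empty] at hA'
      simp [hA'] at hg
    obtain ⟨a, ha⟩ := this
    exact ⟨a, subset_closure ha, by simp [hne]⟩

theorem isCompact_closure_of (he : IsInducing e)
    (hA : ∀ w : ℕ → Z, (∀ n, w n ∈ A) → ∃ z, MapClusterPt z atTop w)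
    (hr : closure (e '' A) ⊆ Set.range e) : IsCompact (closure A) := by
  rw [he.closure_eq_preimage_closure_image]
  refine he.isCompact_preimage' ?_ hr
  choose M hM using fun x : X => bounded he.continuous hA x
  have hcomp : IsCompact (Set.univ.pi fun x : X => Set.Icc (-(M x)) (M x)) :=
    isCompact_univ_pi fun x => isCompact_Icc
  refine hcomp.of_isClosed_subset isClosed_closure ?_
  refine closure_minimal ?_ hcomp.isClosed
  rintro _ ⟨f, hf, rfl⟩ x _
  exact abs_le.1 (hM x f hf)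

end general

section kronecker

open Filter Topology

namespace KronAux

theorem mF_apply {m : ℕ} (k : Fin m → ℤ) (x : UnitAddTorus (Fin m)) :
    UnitAddTorus.mFourier k x = ∏ i, fourier (k i) (x i) := rfl

theorem mF_nsmul_add {m : ℕ} (k : Fin m → ℤ) (z s : UnitAddTorus (Fin m)) (n : ℕ) :
    UnitAddTorus.mFourier k (n • z + s) =
      (UnitAddTorus.mFourier k z) ^ n * UnitAddTorus.mFourier k s := by
  rw [mF_apply, mF_apply, mF_apply, ← Finset.prod_pow, ← Finset.prod_mul_distrib]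
  refine Finset.prod_congr rfl fun i _ => ?_
  simp only [Pi.add_apply, Pi.smul_apply, fourier_apply, smul_add]
  rw [AddCircle.toCircle_add, smul_comm, AddCircle.toCircle_nsmul]
  simp

theorem mF_norm {m : ℕ} (k : Fin m → ℤ) (x : UnitAddTorus (Fin m)) :
    ‖UnitAddTorus.mFourier k x‖ = 1 := by
  rw [mF_apply, norm_prod]
  refine Finset.prod_eq_one fun i _ => ?_
  rw [fourier_apply]
  exact Circle.norm_coe _

theorem mF_ne_one {m : ℕ} (r : Fin m → ℝ) (hr : ∀ k : Fin m → ℤ, k ≠ 0 → ∀ l : ℤ,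
    ∑ i, (k i : ℝ) * r i ≠ l) (k : Fin m → ℤ) (hk : k ≠ 0) :
    UnitAddTorus.mFourier k (fun i => (r i : UnitAddCircle)) ≠ 1 := by
  rw [mF_apply]
  have : ∀ i : Fin m, fourier (k i) ((r i : UnitAddCircle)) =
      Complex.exp (2 * Real.pi * Complex.I * ((k i : ℝ) * r i : ℝ)) := by
    intro i
    rw [fourier_coe_apply]
    congr 1
    push_cast
    ring
  rw [Finset.prod_congr rfl fun i _ => this i, ← Complex.exp_sum, Ne, Complex.exp_eq_one_iff]
  rintro ⟨l, hl⟩
  apply hr k hk l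
  rw [← Finset.mul_sum, ← Complex.ofReal_sum] at hl
  have h2 : (2 * Real.pi * Complex.I : ℂ) ≠ 0 := by
    simp [Real.pi_ne_zero]
  have h3 : ((∑ i, (k i : ℝ) * r i : ℝ) : ℂ) = (l : ℂ) := by
    have : (2 * Real.pi * Complex.I : ℂ) * ((∑ i, (k i : ℝ) * r i : ℝ) : ℂ) =
      (2 * Real.pi * Complex.I : ℂ) * l := by rw [hl]; ring
    exact mul_left_cancel₀ h2 this
  exact_mod_cast h3

theorem geom_avg (ρ : ℂ) (h1 : ‖ρ‖ = 1) (h2 : ρ ≠ 1) :
    Tendsto (fun N : ℕ => ((N : ℂ))⁻¹ * ∑ n ∈ Finset.range N, ρ ^ n) atTop (𝓝 0) := by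
  have hb : ∀ N : ℕ, ‖((N : ℂ))⁻¹ * ∑ n ∈ Finset.range N, ρ ^ n‖ ≤ (2 / ‖ρ - 1‖) * ((N : ℝ))⁻¹ := by
    intro N
    rw [norm_mul, norm_inv, Complex.norm_natCast, geom_sum_eq h2, norm_div, mul_comm]
    apply mul_le_mul_of_nonneg_right _ (by positivity)
    apply div_le_div_of_nonneg_right _ (norm_nonneg _)
    calc ‖ρ ^ N - 1‖ ≤ ‖ρ ^ N‖ + ‖(1 : ℂ)‖ := norm_sub_le _ _
      _ = 2 := by rw [norm_pow, h1]; norm_num
  refine squeeze_zero_norm hb ?_
  have : Tendsto (fun N : ℕ => ((N : ℝ))⁻¹) atTop (𝓝 0) := tendsto_inv_atTop_nhds_zero_nat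
  simpa using this.const_mul (2 / ‖ρ - 1‖)

theorem span_avg {m : ℕ} (z : UnitAddTorus (Fin m))
    (hz : ∀ k : Fin m → ℤ, k ≠ 0 → UnitAddTorus.mFourier k z ≠ 1)
    (q : C(UnitAddTorus (Fin m), ℂ))
    (hq : q ∈ Submodule.span ℂ (Set.range (UnitAddTorus.mFourier (d := Fin m)))) :
    ∃ c : ℂ, ∀ s : UnitAddTorus (Fin m), Tendsto (fun N : ℕ => ((N : ℂ))⁻¹ *
      ∑ n ∈ Finset.range N, q (n • z + s)) atTop (𝓝 c) := by
  induction hq using Submodule.span_induction with
  | mem x hx =>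
    obtain ⟨k, rfl⟩ := hx
    by_cases hk : k = 0
    · subst hk
      refine ⟨1, fun s => ?_⟩
      refine tendsto_const_nhds.congr' ?_
      filter_upwards [eventually_gt_atTop 0] with N hN
      rw [UnitAddTorus.mFourier_zero]
      have : (N : ℂ) ≠ 0 := by exact_mod_cast hN.ne'
      simp [this]
    · refine ⟨0, fun s => ?_⟩
      have := (geom_avg _ (mF_norm k z) (hz k hk)).mul_const (UnitAddTorus.mFourier k s)
      rw [zero_mul] at this
      refine this.congr fun N => ?_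
      rw [mul_assoc, Finset.sum_mul]
      congr 1
      refine Finset.sum_congr rfl fun n _ => ?_
      rw [mF_nsmul_add]
  | zero => exact ⟨0, fun s => by simp⟩
  | add x y _ _ hx hy =>
    obtain ⟨c, hc⟩ := hx
    obtain ⟨d, hd⟩ := hy
    refine ⟨c + d, fun s => ((hc s).add (hd s)).congr fun N => ?_⟩
    rw [← mul_add, ← Finset.sum_add_distrib]
    rfl
  | smul u x _ hx =>
    obtain ⟨c, hc⟩ := hx
    refine ⟨u * c, fun s => ((hc s).const_mul u).congr fun N => ?_⟩
    simp only [ContinuousMap.smul_apply, smul_eq_mul]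
    rw [← Finset.mul_sum]; ring

theorem dense_orbit {m : ℕ} (z : UnitAddTorus (Fin m))
    (hz : ∀ k : Fin m → ℤ, k ≠ 0 → UnitAddTorus.mFourier k z ≠ 1)
    (t : UnitAddTorus (Fin m)) (ε : ℝ) (hε : 0 < ε) : ∃ n : ℕ, dist (n • z) t < ε := by
  by_contra hcon
  push Not at hcon
  let f : C(UnitAddTorus (Fin m), ℂ) := ⟨fun x => ((max 0 (ε - dist x t) : ℝ) : ℂ), by fun_prop⟩
  have hf : ∀ x, f x = ((max 0 (ε - dist x t) : ℝ) : ℂ) := fun x => rfl
  have hf0 : ∀ n : ℕ, f (n • z) = 0 := by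
    intro n
    rw [hf, max_eq_left (by linarith [hcon n])]
    simp
  -- finite cover
  have hopen : ∀ s : UnitAddTorus (Fin m), IsOpen {x | dist (x + s) t < ε} := fun s =>
    isOpen_lt (by fun_prop) continuous_const
  obtain ⟨S, hS⟩ := isCompact_univ.elim_finite_subcover
    (fun s : UnitAddTorus (Fin m) => {x | dist (x + s) t < ε}) hopen (by
      intro x _
      rw [Set.mem_iUnion]
      refine ⟨t - x, ?_⟩
      simpa using hε)
  have hg : Continuous fun x : UnitAddTorus (Fin m) => ∑ s ∈ S, max 0 (ε - dist (x + s) t) := by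
    fun_prop
  obtain ⟨x0, -, hx0⟩ := isCompact_univ.exists_isMinOn (Set.univ_nonempty (α := UnitAddTorus (Fin m)))
    hg.continuousOn
  set c := ∑ s ∈ S, max 0 (ε - dist (x0 + s) t) with hc
  have hcpos : 0 < c := by
    obtain ⟨s, hs⟩ := Set.mem_iUnion.mp (hS (Set.mem_univ x0))
    obtain ⟨hsS, hs2⟩ := Set.mem_iUnion.mp hs
    refine Finset.sum_pos' (fun _ _ => le_max_left _ _) ⟨s, hsS, ?_⟩
    have : dist (x0 + s) t < ε := hs2
    exact lt_max_of_lt_right (by linarith)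
  have hmin : ∀ x, c ≤ ∑ s ∈ S, max 0 (ε - dist (x + s) t) := fun x => hx0 (Set.mem_univ x)
  set η : ℝ := c / (4 * (S.card + 1)) with hη
  have hη0 : 0 < η := by positivity
  have hfcl : f ∈ (Submodule.span ℂ (Set.range (UnitAddTorus.mFourier (d := Fin m)))).topologicalClosure := by
    rw [UnitAddTorus.span_mFourier_closure_eq_top]; trivial
  obtain ⟨q, hq, hqf⟩ := Metric.mem_closure_iff.mp hfcl η hη0
  rw [dist_eq_norm] at hqf
  have hq2 : ∀ x, ‖f x - q x‖ ≤ η := fun x => ((f - q).norm_coe_le_norm x).trans hqf.le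
  obtain ⟨c0, hc0⟩ := span_avg z hz q hq
  have hc0n : ‖c0‖ ≤ η := by
    have h1 := (hc0 0).norm
    refine le_of_tendsto' h1 fun N => ?_
    rw [norm_mul, norm_inv, Complex.norm_natCast]
    have h2 : ‖∑ n ∈ Finset.range N, q (n • z + 0)‖ ≤ N * η := by
      refine (norm_sum_le _ _).trans ?_
      have : ∀ n ∈ Finset.range N, ‖q (n • z + 0)‖ ≤ η := by
        intro n _
        have := hq2 (n • z)
        rw [hf0, zero_sub, norm_neg] at this
        rwa [add_zero]
      refine (Finset.sum_le_sum this).trans ?_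
      simp
    rcases Nat.eq_zero_or_pos N with rfl | hN
    · simpa using hη0.le
    · have hN' : (0 : ℝ) < N := by exact_mod_cast hN
      calc ((N : ℝ))⁻¹ * ‖∑ n ∈ Finset.range N, q (n • z + 0)‖ ≤ ((N : ℝ))⁻¹ * (N * η) :=
            mul_le_mul_of_nonneg_left h2 (by positivity)
        _ = η := by field_simp
  have hsum : Tendsto (fun N : ℕ => ∑ s ∈ S, (((N : ℂ))⁻¹ * ∑ n ∈ Finset.range N, q (n • z + s)))
      atTop (𝓝 (∑ _s ∈ S, c0)) := tendsto_finsetSum _ fun s _ => hc0 s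
  have hre := (Complex.continuous_re.tendsto _).comp hsum
  have hlow : c - S.card * η ≤ (∑ _s ∈ S, c0).re := by
    refine ge_of_tendsto hre ?_
    filter_upwards [eventually_gt_atTop 0] with N hN
    have hN' : (0 : ℝ) < N := by exact_mod_cast hN
    have e1 : (∑ s ∈ S, (((N : ℂ))⁻¹ * ∑ n ∈ Finset.range N, q (n • z + s))) =
        (((N : ℝ)⁻¹ : ℝ) : ℂ) * ∑ n ∈ Finset.range N, ∑ s ∈ S, q (n • z + s) := by
      rw [← Finset.mul_sum, Finset.sum_comm]; push_cast; rfl
    have e2 : ∀ n ∈ Finset.range N, c - S.card * η ≤ (∑ s ∈ S, q (n • z + s)).re := by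
      intro n _
      rw [Complex.re_sum]
      have h3 : ∀ s ∈ S, max 0 (ε - dist (n • z + s) t) - η ≤ (q (n • z + s)).re := by
        intro s _
        have h4 := hq2 (n • z + s)
        have h5 := (Complex.abs_re_le_norm _).trans h4
        rw [Complex.sub_re, hf, Complex.ofReal_re, abs_le] at h5
        linarith [h5.2]
      have h6 := Finset.sum_le_sum h3
      rw [Finset.sum_sub_distrib] at h6
      have h7 := hmin (n • z)
      simp only [Finset.sum_const, nsmul_eq_mul] at h6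
      linarith
    simp only [Function.comp_apply]
    rw [e1, Complex.re_ofReal_mul, Complex.re_sum]
    have h8 := Finset.sum_le_sum e2
    simp only [Finset.sum_const, nsmul_eq_mul, Finset.card_range] at h8
    have h9 := mul_le_mul_of_nonneg_left h8 (inv_nonneg.mpr hN'.le)
    rwa [← mul_assoc, inv_mul_cancel₀ hN'.ne', one_mul] at h9
  have hup : (∑ _s ∈ S, c0).re ≤ S.card * η := by
    refine (Complex.re_le_norm _).trans ?_
    rw [Finset.sum_const, nsmul_eq_mul, norm_mul, Complex.norm_natCast]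
    exact mul_le_mul_of_nonneg_left hc0n (by positivity)
  have h10 : (S.card : ℝ) * η ≤ c / 4 := by
    rw [hη, mul_div_assoc', div_le_div_iff₀ (by positivity) (by norm_num)]
    nlinarith
  linarith

theorem uniform_orbit {m : ℕ} (z : UnitAddTorus (Fin m))
    (hz : ∀ k : Fin m → ℤ, k ≠ 0 → UnitAddTorus.mFourier k z ≠ 1)
    (ε : ℝ) (hε : 0 < ε) : ∃ N : ℕ, ∀ t : UnitAddTorus (Fin m), ∃ n ≤ N, dist (n • z) t < ε := by
  obtain ⟨S, hS⟩ := isCompact_univ.elim_finite_subcover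
    (fun n : ℕ => {t : UnitAddTorus (Fin m) | dist (n • z) t < ε})
    (fun n => isOpen_lt (by fun_prop) continuous_const) (by
      intro t _
      rw [Set.mem_iUnion]
      exact dense_orbit z hz t ε hε)
  refine ⟨S.sup id, fun t => ?_⟩
  obtain ⟨n, hn⟩ := Set.mem_iUnion.mp (hS (Set.mem_univ t))
  obtain ⟨hnS, hn2⟩ := Set.mem_iUnion.mp hn
  exact ⟨n, Finset.le_sup (f := id) hnS, hn2⟩

theorem exists_indep (W : Type) (hW : Cardinal.mk W ≤ Cardinal.continuum) :
    ∃ r : W → ℝ, ∀ (m : ℕ) (a : Fin m → W), Function.Injective a → ∀ k : Fin m → ℤ, k ≠ 0 →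
      ∀ l : ℤ, ∑ i, (k i : ℝ) * r (a i) ≠ l := by
  let B := Module.Basis.ofVectorSpace ℚ ℝ
  have hcard : Cardinal.mk (Module.Basis.ofVectorSpaceIndex ℚ ℝ) = Cardinal.continuum := by
    rw [← Real.rank_rat_real, ← B.mk_eq_rank'']
  have hinf : Infinite (Module.Basis.ofVectorSpaceIndex ℚ ℝ) := by
    rw [Cardinal.infinite_iff, hcard]; exact Cardinal.aleph0_le_continuum
  obtain ⟨i0⟩ : Nonempty (Module.Basis.ofVectorSpaceIndex ℚ ℝ) := inferInstance
  have hcard2 : Cardinal.mk W ≤ Cardinal.mk {i : Module.Basis.ofVectorSpaceIndex ℚ ℝ // i ≠ i0} := by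
    have : Cardinal.mk {i : Module.Basis.ofVectorSpaceIndex ℚ ℝ // i ≠ i0} =
        Cardinal.mk (Module.Basis.ofVectorSpaceIndex ℚ ℝ) := by
      have := Cardinal.mk_compl_of_infinite ({i0} : Set (Module.Basis.ofVectorSpaceIndex ℚ ℝ)) (by
        rw [Cardinal.mk_singleton, hcard]
        exact Cardinal.one_lt_aleph0.trans_le Cardinal.aleph0_le_continuum)
      exact this
    rw [this, hcard]; exact hW
  obtain ⟨g⟩ := Cardinal.le_def _ _ |>.mp hcard2
  have hB0 : B i0 ≠ 0 := B.ne_zero i0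
  refine ⟨fun ξ => B (g ξ).1 / B i0, ?_⟩
  intro m a ha k hk l hl
  have h1 : ∑ i, (k i : ℝ) * B (g (a i)).1 - l * B i0 = 0 := by
    rw [← hl, Finset.sum_mul, sub_eq_zero]
    refine Finset.sum_congr rfl fun i _ => ?_
    field_simp
  obtain ⟨j, hj⟩ : ∃ j, k j ≠ 0 := by
    by_contra hcon
    push Not at hcon
    exact hk (funext hcon)
  have h2 := congrArg (fun v => B.repr v (g (a j)).1) h1
  have h3 : ∀ i, (k i : ℝ) * B (g (a i)).1 = ((k i : ℤ) : ℚ) • B (g (a i)).1 := by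
    intro i; rw [Rat.smul_def]; push_cast; rfl
  have h4 : (l : ℝ) * B i0 = ((l : ℤ) : ℚ) • B i0 := by rw [Rat.smul_def]; push_cast; rfl
  simp only [h4, Finset.sum_congr rfl fun i _ => h3 i] at h2
  rw [map_sub, map_sum] at h2
  simp only [map_smul, Module.Basis.repr_self, Finsupp.sub_apply, Finsupp.finsetSum_apply,
    Finsupp.smul_apply, smul_eq_mul, map_zero, Finsupp.zero_apply] at h2
  rw [Finset.sum_eq_single j] at h2
  · rw [Finsupp.single_eq_same, Finsupp.single_eq_of_ne (g (a j)).2] at h2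
    apply hj
    have : ((k j : ℤ) : ℚ) = 0 := by linarith
    exact_mod_cast this
  · intro i _ hij
    rw [Finsupp.single_eq_of_ne, mul_zero]
    intro h
    apply hij
    exact (ha (g.injective (Subtype.ext h.symm)))
  · intro h; exact absurd (Finset.mem_univ j) h

end KronAux

/-- Kronecker family: for an index type `W` of size at most continuum there are points `z ξ` of the circle
such that finitely many distinct ones have uniformly recurrent joint orbits. -/
theorem kron (W : Type) (hW : Cardinal.mk W ≤ Cardinal.continuum) :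
    ∃ z : W → UnitAddCircle, (∀ ξ, ∀ n : ℕ, 0 < n → n • z ξ ≠ 0) ∧
      ∀ (m : ℕ) (a : Fin m → W), Function.Injective a → ∀ ε : ℝ, 0 < ε →
        ∃ N : ℕ, ∀ (c : Fin m → ℕ) (t : Fin m → UnitAddCircle),
          ∃ j ≤ N, ∀ i, ‖(c i + j + 1) • z (a i) - t i‖ < ε := by
  obtain ⟨r, hr⟩ := KronAux.exists_indep W hW
  refine ⟨fun ξ => (r ξ : UnitAddCircle), ?_, ?_⟩
  · intro ξ n hn h0
    have h1 : ((n • r ξ : ℝ) : UnitAddCircle) = 0 := by
      rw [← h0]; rfl
    rw [AddCircle.coe_eq_zero_iff] at h1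
    obtain ⟨l, hl⟩ := h1
    apply hr 1 (fun _ => ξ) (fun _ _ _ => Subsingleton.elim _ _) (fun _ => (n : ℤ)) (by
      intro h
      have := congrFun h 0
      simp at this
      omega) l
    simp only [Finset.univ_unique, Finset.sum_const, Finset.card_singleton, one_smul]
    rw [zsmul_one, nsmul_eq_mul] at hl
    push_cast
    exact hl.symm
  · intro m a ha ε hε
    obtain ⟨N, hN⟩ := KronAux.uniform_orbit (fun i => ((r (a i) : ℝ) : UnitAddCircle))
      (fun k hk => KronAux.mF_ne_one (fun i => r (a i)) (hr m a ha) k hk) ε hε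
    refine ⟨N, fun c t => ?_⟩
    obtain ⟨j, hj, hd⟩ := hN (fun i => t i - (c i + 1) • ((r (a i) : ℝ) : UnitAddCircle))
    refine ⟨j, hj, fun i => ?_⟩
    have h1 := (dist_le_pi_dist (j • (fun i => ((r (a i) : ℝ) : UnitAddCircle)))
      (fun i => t i - (c i + 1) • ((r (a i) : ℝ) : UnitAddCircle)) i).trans_lt hd
    rw [dist_eq_norm] at h1
    have h2 : (c i + j + 1) • ((r (a i) : ℝ) : UnitAddCircle) - t i =
        (j • (fun i => ((r (a i) : ℝ) : UnitAddCircle))) i -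
          (t i - (c i + 1) • ((r (a i) : ℝ) : UnitAddCircle)) := by
      simp only [Pi.smul_apply, add_smul]
      abel
    rw [h2]; exact h1

end kronecker

class Om (W : Type) [LinearOrder W] [OrderBot W] [WellFoundedLT W] : Prop where
  countable_Iio : ∀ b : W, (Set.Iio b).Countable
  bdd : ∀ S : Set W, S.Countable → ∃ b, ∀ x ∈ S, x < b

section basic

variable {W : Type} [LinearOrder W] [OrderBot W] [WellFoundedLT W] [Om W]

/-- local well founded relation -/
local instance wfr : WellFoundedRelation W := ⟨(· < ·), wellFounded_lt⟩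

theorem exists_lad : ∃ c : W → ℕ → W, (∀ b n, ⊥ < b → c b n < b) ∧ (∀ b, Monotone (c b)) ∧
    ∀ a b, a < b → ∃ n, a ≤ c b n := by
  have h : ∀ b : W, ∃ s : ℕ → W, (⊥ < b → ∀ n, s n < b) ∧ Monotone s ∧ ∀ a < b, ∃ n, a ≤ s n := by
    intro b
    by_cases hb : ⊥ < b
    · obtain ⟨s, hs⟩ := (Om.countable_Iio b).exists_eq_range ⟨⊥, hb⟩
      refine ⟨fun n => partialSups s n, fun _ n => ?_, (partialSups s).monotone, ?_⟩
      · obtain ⟨i, -, hi⟩ := exists_partialSups_eq s n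
        show partialSups s n < b
        rw [hi]
        have : s i ∈ Set.Iio b := by rw [hs]; exact ⟨i, rfl⟩
        exact this
      · intro a ha
        have : a ∈ Set.Iio b := ha
        rw [hs] at this
        obtain ⟨n, rfl⟩ := this
        exact ⟨n, le_partialSups s n⟩
    · refine ⟨fun _ => ⊥, fun h => absurd h hb, monotone_const, fun a ha => ?_⟩
      exact absurd (bot_le.trans_lt ha) hb
  choose c hc using h
  exact ⟨c, fun b n hb => (hc b).1 hb n, fun b => (hc b).2.1, fun a b hab => (hc b).2.2 a hab⟩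

/-- ladder -/
noncomputable def lad : W → ℕ → W := Classical.choose (exists_lad (W := W))

theorem lad_lt {b : W} (n : ℕ) (hb : ⊥ < b) : lad b n < b :=
  (Classical.choose_spec (exists_lad (W := W))).1 b n hb

theorem lad_mono (b : W) : Monotone (lad b) :=
  (Classical.choose_spec (exists_lad (W := W))).2.1 b

theorem lad_cof {a b : W} (h : a < b) : ∃ n, a ≤ lad b n :=
  (Classical.choose_spec (exists_lad (W := W))).2.2 a b h

open Classical in
/-- index of the first ladder point above `a` -/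
noncomputable def nn (b a : W) : ℕ := if h : ∃ n, a ≤ lad b n then Nat.find h else 0

theorem le_nn {a b : W} (h : a < b) : a ≤ lad b (nn b a) := by
  classical
  unfold nn
  rw [dif_pos (lad_cof h)]
  exact Nat.find_spec (lad_cof h)

theorem nn_le {a b : W} {n : ℕ} (h : a ≤ lad b n) : nn b a ≤ n := by
  classical
  unfold nn
  rw [dif_pos ⟨n, h⟩]
  exact Nat.find_min' _ h

theorem lt_nn {a b : W} {n : ℕ} (h : n < nn b a) : lad b n < a := by
  by_contra h'
  exact absurd (nn_le (not_lt.1 h')) (not_le.2 h)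

theorem nn_mono {a a' b : W} (h : a ≤ a') (hb : a' < b) : nn b a ≤ nn b a' :=
  nn_le (h.trans (le_nn hb))

/-- the function `rho_1`; `e ξ β` -/
noncomputable def e (ξ β : W) : ℕ :=
  if h : ξ < β then max (nn β ξ) (e ξ (lad β (nn β ξ))) else 0
termination_by β
decreasing_by exact lad_lt _ (bot_le.trans_lt h)

theorem e_of_lt {ξ β : W} (h : ξ < β) : e ξ β = max (nn β ξ) (e ξ (lad β (nn β ξ))) := by
  rw [e, dif_pos h]

theorem e_self (ξ : W) : e ξ ξ = 0 := by
  rw [e, dif_neg (lt_irrefl ξ)]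

theorem E1 (k : ℕ) (β : W) : {ξ | ξ < β ∧ e ξ β ≤ k}.Finite := by
  induction β using WellFoundedLT.induction with
  | _ β ih =>
    by_cases hβ : ⊥ < β
    · have h1 : ∀ n, {ξ | ξ ≤ lad β n ∧ e ξ (lad β n) ≤ k}.Finite := by
        intro n
        refine ((ih (lad β n) (lad_lt n hβ)).union (Set.finite_singleton (lad β n))).subset ?_
        rintro ξ ⟨h1, h2⟩
        rcases h1.lt_or_eq with h | h
        · exact Or.inl ⟨h, h2⟩
        · exact Or.inr h
      refine ((Set.finite_Iic k).biUnion (t := fun n => {ξ | ξ ≤ lad β n ∧ e ξ (lad β n) ≤ k})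
        fun n _ => h1 n).subset ?_
      rintro ξ ⟨h2, h3⟩
      rw [e_of_lt h2] at h3
      simp only [Set.mem_iUnion]
      exact ⟨nn β ξ, (le_max_left _ _).trans h3, le_nn h2, (le_max_right _ _).trans h3⟩
    · convert Set.finite_empty (α := W)
      ext ξ
      simp only [Set.mem_ofPred_eq, Set.mem_empty_iff_false, iff_false, not_and]
      intro h
      exact absurd (bot_le.trans_lt h) hβ

theorem E2 (β : W) : ∀ α ≤ β, {ξ | ξ < α ∧ e ξ α ≠ e ξ β}.Finite := by
  induction β using WellFoundedLT.induction with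
  | _ β ih =>
    intro α hα
    rcases hα.lt_or_eq with hα | rfl
    swap
    · simp
    have hβ : ⊥ < β := bot_le.trans_lt hα
    -- for each n the comparison of `e · (lad β n)` with `e · α` below both
    have h1 : ∀ n, {ξ | ξ < α ∧ ξ < lad β n ∧ e ξ (lad β n) ≠ e ξ α}.Finite := by
      intro n
      rcases le_total (lad β n) α with h | h
      · refine (ih α hα (lad β n) h).subset ?_
        rintro ξ ⟨-, h2, h3⟩
        exact ⟨h2, h3⟩
      · refine (ih (lad β n) (lad_lt n hβ) α h).subset ?_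
        rintro ξ ⟨h2, -, h3⟩
        exact ⟨h2, h3.symm⟩
    have h2 : ∀ n, ({ξ | ξ < α ∧ ξ < lad β n ∧ e ξ (lad β n) ≠ e ξ α} ∪ {lad β n} ∪
        {ξ | ξ < lad β n ∧ e ξ (lad β n) ≤ n}).Finite := fun n =>
      ((h1 n).union (Set.finite_singleton _)).union (E1 n _)
    refine ((Set.finite_Iic (nn β α)).biUnion (t := fun n =>
      {ξ | ξ < α ∧ ξ < lad β n ∧ e ξ (lad β n) ≠ e ξ α} ∪ {lad β n} ∪
        {ξ | ξ < lad β n ∧ e ξ (lad β n) ≤ n}) fun n _ => h2 n).subset ?_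
    rintro ξ ⟨h3, h4⟩
    simp only [Set.mem_iUnion]
    have h5 : ξ < β := h3.trans hα
    refine ⟨nn β ξ, nn_mono h3.le hα, ?_⟩
    rcases (le_nn h5).lt_or_eq with h6 | h6
    swap
    · exact Or.inl (Or.inr h6)
    by_cases h7 : e ξ (lad β (nn β ξ)) ≤ nn β ξ
    · exact Or.inr ⟨h6, h7⟩
    · refine Or.inl (Or.inl ⟨h3, h6, ?_⟩)
      rw [e_of_lt h5, max_eq_right (not_le.1 h7).le] at h4
      exact fun h => h4 h.symm

/-- coherence of any two -/
theorem E2' (δ β γ : W) (h1 : δ ≤ β) (h2 : δ ≤ γ) : {ξ | ξ < δ ∧ e ξ β ≠ e ξ γ}.Finite := by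
  refine ((E2 β δ h1).union (E2 γ δ h2)).subset ?_
  rintro ξ ⟨h3, h4⟩
  by_cases h5 : e ξ δ = e ξ β
  · refine Or.inr ⟨h3, fun h6 => h4 (h5.symm.trans h6)⟩
  · exact Or.inl ⟨h3, h5⟩

/-- largest ladder point below `α` -/
noncomputable def mx (β α : W) : W := if nn β α = 0 then ⊥ else lad β (nn β α - 1)

theorem mx_lt {α β : W} (hα : ⊥ < α) : mx β α < α := by
  unfold mx
  split_ifs with h
  · exact hα
  · exact lt_nn (by omega)

open Classical in
/-- lower trace -/
noncomputable def L (α β : W) : List W :=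
  if h : α < β then mx β α :: (L α (lad β (nn β α))).filter (fun x => mx β α < x) else []
termination_by β
decreasing_by exact lad_lt _ (bot_le.trans_lt h)

open Classical in
theorem L_of_lt {α β : W} (h : α < β) :
    L α β = mx β α :: (L α (lad β (nn β α))).filter (fun x => mx β α < x) := by
  rw [L, dif_pos h]

theorem L_self (α : W) : L α α = [] := by rw [L, dif_neg (lt_irrefl α)]

theorem L_ne_nil {α β : W} (h : α < β) : L α β ≠ [] := by rw [L_of_lt h]; simp

theorem L_lt {α : W} (hα : ⊥ < α) (β : W) : ∀ x ∈ L α β, x < α := by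
  induction β using WellFoundedLT.induction with
  | _ β ih =>
    intro x hx
    by_cases h : α < β
    · rw [L_of_lt h, List.mem_cons, List.mem_filter] at hx
      rcases hx with rfl | hx
      · exact mx_lt hα
      · exact ih _ (lad_lt _ (hα.trans h)) x hx.1
    · rw [L, dif_neg h] at hx
      simp at hx

theorem mx_le_L {α β : W} (h : α < β) : ∀ x ∈ L α β, mx β α ≤ x := by
  intro x hx
  rw [L_of_lt h, List.mem_cons, List.mem_filter] at hx
  rcases hx with rfl | hx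
  · exact le_rfl
  · exact (by simpa using hx.2 : mx β α < x).le

theorem F1 (γ : W) : ∀ α β, α ≤ β → β ≤ γ → (∀ x ∈ L β γ, ∀ y ∈ L α β, x < y) →
    L α γ = L β γ ++ L α β := by
  classical
  induction γ using WellFoundedLT.induction with
  | _ γ ih =>
    intro α β hαβ hβγ hlt
    rcases hβγ.lt_or_eq with hβγ | rfl
    swap
    · rw [L_self, List.nil_append]
    rcases hαβ.lt_or_eq with hαβ | rfl
    swap
    · rw [L_self, List.append_nil]
    have hβ : ⊥ < β := bot_le.trans_lt hαβ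
    have hγ : ⊥ < γ := hβ.trans hβγ
    have hm : mx γ β ∈ L β γ := by rw [L_of_lt hβγ]; exact List.mem_cons_self
    obtain ⟨y, hy⟩ := List.exists_mem_of_ne_nil _ (L_ne_nil hαβ)
    have hα : ⊥ < α := by
      rcases (bot_le : ⊥ ≤ α).lt_or_eq with h | h
      · exact h
      · exfalso
        -- L ⊥ β consists of ⊥ only
        have : ∀ x ∈ L α β, x ≤ ⊥ := by
          subst h
          have hb : ∀ b : W, ∀ x ∈ L (⊥ : W) b, x ≤ ⊥ := by
            intro b
            induction b using WellFoundedLT.induction with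
            | _ b ihb =>
              intro x hx
              by_cases h : (⊥ : W) < b
              · rw [L_of_lt h, List.mem_cons, List.mem_filter] at hx
                rcases hx with rfl | hx
                · unfold mx
                  rw [if_pos]
                  exact Nat.le_zero.1 (nn_le bot_le)
                · exact ihb _ (lad_lt _ h) x hx.1
              · rw [L, dif_neg h] at hx
                simp at hx
          exact hb β
        exact absurd ((hlt _ hm y hy).trans_le (this y hy)) (not_lt.2 bot_le)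
    have hmα : mx γ β < α := (hlt _ hm y hy).trans (L_lt hα β y hy)
    -- the first step is the same
    have hnn : nn γ α = nn γ β := by
      apply le_antisymm (nn_mono hαβ.le hβγ)
      by_contra h
      push Not at h
      have h0 : nn γ β ≠ 0 := by omega
      have : mx γ β = lad γ (nn γ β - 1) := by unfold mx; rw [if_neg h0]
      have h1 : α ≤ lad γ (nn γ β - 1) :=
        (le_nn (hαβ.trans hβγ)).trans (lad_mono γ (by omega))
      rw [this] at hmα
      exact absurd h1 (not_le.2 hmα)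
    have hmx : mx γ α = mx γ β := by unfold mx; rw [hnn]
    have key : L α (lad γ (nn γ β)) = L β (lad γ (nn γ β)) ++ L α β := by
      apply ih _ (lad_lt _ hγ) α β hαβ.le (le_nn hβγ)
      intro x hx y hy
      by_cases h : mx γ β < x
      · apply hlt x _ y hy
        rw [L_of_lt hβγ, List.mem_cons, List.mem_filter]
        exact Or.inr ⟨hx, by simpa using h⟩
      · exact (not_lt.1 h).trans_lt (hlt _ hm y hy)
    rw [L_of_lt (hαβ.trans hβγ), L_of_lt hβγ, hnn, hmx, key, List.filter_append, List.cons_append]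
    congr 1
    congr 1
    rw [List.filter_eq_self]
    intro y hy
    simpa using hlt _ hm y hy

theorem F2 {δ γ : W} (hδ : ∀ g < δ, ∃ g' < δ, g < g') (hγ : γ < δ) :
    ∃ x₀ < δ, ∀ ξ, x₀ < ξ → ξ < δ → ∀ x ∈ L ξ δ, γ < x := by
  obtain ⟨γ', h1, h2⟩ := hδ γ hγ
  obtain ⟨n, hn⟩ := lad_cof h1
  refine ⟨lad δ n, lad_lt n (bot_le.trans_lt hγ), fun ξ h3 h4 x hx => ?_⟩
  refine lt_of_lt_of_le ?_ (mx_le_L h4 x hx)
  have h5 : n < nn δ ξ := by
    by_contra h
    push Not at h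
    exact absurd ((le_nn h4).trans (lad_mono δ h)) (not_le.2 h3)
  unfold mx
  rw [if_neg (by omega)]
  exact (h2.trans_le hn).trans_le (lad_mono δ (by omega))

end basic

/-- number of adjacent pairs (false, true) -/
def asc : List Bool → ℕ
  | [] => 0
  | [_] => 0
  | a :: b :: l => (if a = false ∧ b = true then 1 else 0) + asc (b :: l)

theorem asc_append_true (l₁ l₂ : List Bool) (h : l₁.getLast? = some true) :
    asc (l₁ ++ l₂) = asc l₁ + asc l₂ := by
  induction l₁ with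
  | nil => simp at h
  | cons a l ih =>
    cases l with
    | nil =>
      simp only [List.getLast?_singleton, Option.some.injEq] at h
      subst h
      cases l₂ with
      | nil => simp [asc]
      | cons b l₂ => simp [asc]
    | cons b l =>
      have h' : (b :: l).getLast? = some true := by simpa using h
      have := ih h'
      simp only [List.cons_append] at this ⊢
      simp only [asc]
      rw [this]
      omega

theorem asc_append_false (l₁ l₂ : List Bool) (h : ∀ x ∈ l₂, x = false) :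
    asc (l₁ ++ l₂) = asc l₁ := by
  have h0 : ∀ l : List Bool, (∀ x ∈ l, x = false) → asc l = 0 := by
    intro l
    induction l with
    | nil => intro; rfl
    | cons a l ih =>
      intro hl
      cases l with
      | nil => rfl
      | cons b l =>
        simp only [asc]
        rw [ih (fun x hx => hl x (List.mem_cons_of_mem _ hx))]
        have : b = false := hl b (by simp)
        simp [this]
  induction l₁ with
  | nil => simpa [asc] using h0 l₂ h
  | cons a l ih =>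
    cases l with
    | nil =>
      cases l₂ with
      | nil => simp
      | cons b l₂ =>
        have hb : b = false := h b (by simp)
        simp only [List.singleton_append, asc]
        rw [h0 _ h]
        simp [hb]
    | cons b l =>
      simp only [List.cons_append, asc] at ih ⊢
      rw [ih]

theorem asc_append_block (l₁ l₂ l₃ : List Bool) (h2 : ∀ x ∈ l₂, x = false) (h2' : l₂ ≠ [])
    (h3 : ∀ x ∈ l₃, x = true) (h3' : l₃ ≠ []) :
    asc (l₁ ++ (l₂ ++ l₃)) = asc l₁ + 1 := by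
  have ht : ∀ l : List Bool, (∀ x ∈ l, x = true) → asc l = 0 := by
    intro l
    induction l with
    | nil => intro; rfl
    | cons a l ih =>
      intro hl
      cases l with
      | nil => rfl
      | cons b l =>
        simp only [asc]
        rw [ih (fun x hx => hl x (List.mem_cons_of_mem _ hx))]
        have : a = true := hl a (by simp)
        simp [this]
  have hend : ∀ l : List Bool, l.getLast? = some false → asc (l ++ l₃) = asc l + 1 := by
    intro l
    induction l with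
    | nil => intro h; simp at h
    | cons a l ih =>
      intro h
      cases l with
      | nil =>
        simp only [List.getLast?_singleton, Option.some.injEq] at h
        subst h
        cases l₃ with
        | nil => exact absurd rfl h3'
        | cons b l₃ =>
          have hb : b = true := h3 b (by simp)
          simp only [List.singleton_append, asc]
          rw [ht _ h3]
          simp [hb]
      | cons b l =>
        have h' : (b :: l).getLast? = some false := by simpa using h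
        have := ih h'
        simp only [List.cons_append] at this ⊢
        simp only [asc]
        rw [this]
        omega
  rw [← List.append_assoc, hend, asc_append_false _ _ h2]
  rw [List.getLast?_append_of_ne_nil _ h2']
  rw [List.getLast?_eq_getLast_of_ne_nil h2']
  congr 1
  exact h2 _ (List.getLast_mem h2')

theorem getLast?_append_true (l₁ l₂ : List Bool) (h : ∀ x ∈ l₂, x = true) (h' : l₂ ≠ []) :
    (l₁ ++ l₂).getLast? = some true := by
  rw [List.getLast?_append_of_ne_nil _ h', List.getLast?_eq_getLast_of_ne_nil h']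
  congr 1
  exact h _ (List.getLast_mem h')

section filter

variable {A : Type} [TopologicalSpace A]

/-- every sequence has a cluster point -/
def CC (A : Type) [TopologicalSpace A] : Prop := ∀ x : ℕ → A, ∃ k, MapClusterPt k atTop x

/-- closed under closures of countable subsets -/
def OC (F : Set A) : Prop := ∀ S ⊆ F, S.Countable → closure S ⊆ F

theorem mem_closure_tail {x : ℕ → A} {k : A} (h : MapClusterPt k atTop x) (n : ℕ) :
    k ∈ closure (x '' {j | n ≤ j}) := by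
  rw [mem_closure_iff_clusterPt]
  exact ClusterPt.mono h (le_principal_iff.2 (Filter.image_mem_map (Ici_mem_atTop n)))

structure UF (U : Set (Set A)) : Prop where
  oc : ∀ F ∈ U, OC F
  ne : ∀ F ∈ U, F.Nonempty
  inter : ∀ F : ℕ → Set A, (∀ n, F n ∈ U) → (⋂ n, F n) ∈ U
  max : ∀ F, OC F → (∀ G ∈ U, (F ∩ G).Nonempty) → F ∈ U

theorem OC.inter {F G : Set A} (hF : OC F) (hG : OC G) : OC (F ∩ G) := fun S hS hc =>
  Set.subset_inter (hF S (hS.trans Set.inter_subset_left) hc)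
    (hG S (hS.trans Set.inter_subset_right) hc)

theorem OC.iInter {ι : Sort*} {F : ι → Set A} (hF : ∀ i, OC (F i)) : OC (⋂ i, F i) := fun S hS hc =>
  Set.subset_iInter fun i => hF i S (hS.trans (Set.iInter_subset _ _)) hc

theorem OC.mem {F : Set A} (hF : OC F) {x : ℕ → A} {n : ℕ} (hx : ∀ j, n ≤ j → x j ∈ F) {k : A}
    (h : MapClusterPt k atTop x) : k ∈ F :=
  hF _ (by rintro _ ⟨j, hj, rfl⟩; exact hx j hj) ((Set.to_countable _).image x)
    (mem_closure_tail h n)

def FIP (U : Set (Set A)) : Prop := ∀ s : Finset (Set A), (↑s : Set (Set A)) ⊆ U →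
  (⋂₀ (↑s : Set (Set A))).Nonempty

theorem exists_UF (hA : CC A) (V : Set (Set A)) (h1 : ∀ F ∈ V, OC F) (h2 : FIP V) :
    ∃ U, V ⊆ U ∧ UF U := by
  classical
  obtain ⟨U, hVU, hU⟩ := zorn_subset_nonempty {U : Set (Set A) | (∀ F ∈ U, OC F) ∧ FIP U}
    (by
      intro c hc hchain hne
      refine ⟨⋃₀ c, ⟨?_, ?_⟩, fun s hs => Set.subset_sUnion_of_mem hs⟩
      · rintro F ⟨s, hs, hF⟩
        exact (hc hs).1 F hF
      · intro s hs
        -- s is contained in one member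
        have : ∃ t ∈ c, (↑s : Set (Set A)) ⊆ t := by
          induction s using Finset.induction_on with
          | empty =>
            obtain ⟨t, ht⟩ := hne
            exact ⟨t, ht, by simp⟩
          | insert a s ha ih =>
            obtain ⟨t, ht, hst⟩ := ih (fun x hx => hs (Finset.mem_coe.2 (Finset.mem_insert_of_mem hx)))
            obtain ⟨t', ht', hat'⟩ := hs (by simp : a ∈ (↑(insert a s) : Set (Set A)))
            rcases hchain.total ht ht' with h | h
            · refine ⟨t', ht', ?_⟩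
              rw [Finset.coe_insert]
              exact Set.insert_subset hat' (hst.trans h)
            · refine ⟨t, ht, ?_⟩
              rw [Finset.coe_insert]
              exact Set.insert_subset (h hat') hst
        obtain ⟨t, ht, hst⟩ := this
        exact (hc ht).2 s hst) V ⟨h1, h2⟩
  have hUS : (∀ F ∈ U, OC F) ∧ FIP U := hU.1
  -- maximality with respect to finite intersections
  have hmax : ∀ F, OC F → (∀ s : Finset (Set A), (↑s : Set (Set A)) ⊆ U →
      (F ∩ ⋂₀ (↑s : Set (Set A))).Nonempty) → F ∈ U := by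
    intro F hF hs
    have : insert F U ⊆ U := by
      apply hU.2 (y := insert F U) _ (Set.subset_insert _ _)
      refine ⟨?_, ?_⟩
      · rintro G (rfl | hG)
        · exact hF
        · exact hUS.1 G hG
      · intro s hsU
        have := hs (s.erase F) (by
          intro x hx
          rw [Finset.coe_erase] at hx
          rcases hsU hx.1 with h | h
          · exact absurd h hx.2
          · exact h)
        obtain ⟨x, hx1, hx2⟩ := this
        refine ⟨x, ?_⟩
        intro G hG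
        by_cases hGF : G = F
        · rw [hGF]; exact hx1
        · exact hx2 G (by rw [Finset.coe_erase]; exact ⟨hG, hGF⟩)
    exact this (Set.mem_insert _ _)
  have hfin : ∀ s : Finset (Set A), (↑s : Set (Set A)) ⊆ U → ⋂₀ (↑s : Set (Set A)) ∈ U := by
    intro s hs
    apply hmax
    · rw [Set.sInter_eq_iInter]
      exact OC.iInter fun i => hUS.1 _ (hs i.2)
    · intro t ht
      have := hUS.2 (s ∪ t) (by
        rw [Finset.coe_union]
        exact Set.union_subset hs ht)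
      rwa [Finset.coe_union, Set.sInter_union] at this
  have hne : ∀ F ∈ U, F.Nonempty := by
    intro F hF
    have := hUS.2 {F} (by simpa using hF)
    simpa using this
  have hmax' : ∀ F, OC F → (∀ G ∈ U, (F ∩ G).Nonempty) → F ∈ U := fun F hF hG =>
    hmax F hF fun s hs => hG _ (hfin s hs)
  refine ⟨U, hVU, hUS.1, hne, ?_, hmax'⟩
  intro F hF
  apply hmax' _ (OC.iInter fun n => hUS.1 _ (hF n))
  intro G hG
  have h3 : ∀ n, ∃ x, x ∈ G ∧ ∀ i ≤ n, x ∈ F i := by
    intro n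
    have := hfin (insert G ((Finset.range (n + 1)).image F)) (by
      intro x hx
      simp only [Finset.coe_insert, Finset.coe_image, Set.mem_insert_iff, Set.mem_image] at hx
      rcases hx with rfl | ⟨i, -, rfl⟩
      · exact hG
      · exact hF i)
    obtain ⟨x, hx⟩ := hne _ this
    refine ⟨x, hx G (by simp), fun i hi => hx _ ?_⟩
    simp only [Finset.coe_insert, Finset.coe_image, Set.mem_insert_iff, Set.mem_image]
    exact Or.inr ⟨i, by simpa using Nat.lt_succ_of_le hi, rfl⟩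
  choose x hxG hxF using h3
  obtain ⟨k, hk⟩ := hA x
  refine ⟨k, Set.mem_iInter.2 fun n => ?_, ?_⟩
  · exact (hUS.1 _ (hF n)).mem (n := n) (fun j hj => hxF j n hj) hk
  · exact (hUS.1 _ hG).mem (n := 0) (fun j _ => hxG j) hk

def Pos (U : Set (Set A)) (P : Set A) : Prop := ∀ F ∈ U, (P ∩ F).Nonempty

def omcl (P : Set A) : Set A := {x | ∃ S ⊆ P, S.Countable ∧ x ∈ closure S}

theorem Pos.mono {U : Set (Set A)} {P Q : Set A} (h : Pos U P) (hPQ : P ⊆ Q) : Pos U Q :=
  fun F hF => (h F hF).mono (Set.inter_subset_inter_left _ hPQ)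

theorem subset_omcl (P : Set A) : P ⊆ omcl P := fun x hx =>
  ⟨{x}, by simpa using hx, Set.countable_singleton x, subset_closure rfl⟩

theorem omcl_oc (P : Set A) : OC (omcl P) := by
  intro S hS hc x hx
  have hS' : ∀ s ∈ S, ∃ T : Set A, T ⊆ P ∧ T.Countable ∧ s ∈ closure T := hS
  choose! T hT1 hT2 hT3 using hS'
  refine ⟨⋃ s ∈ S, T s, Set.iUnion₂_subset fun s hs => hT1 s hs, hc.biUnion fun s hs => hT2 s hs, ?_⟩
  have : S ⊆ closure (⋃ s ∈ S, T s) := fun s hs =>
    closure_mono (Set.subset_biUnion_of_mem (u := fun s => T s) hs) (hT3 s hs)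
  exact (closure_minimal this isClosed_closure) hx

variable {U : Set (Set A)}

theorem UF.omcl_mem (hU : UF U) {P : Set A} (h : Pos U P) : omcl P ∈ U :=
  hU.max _ (omcl_oc P) (h.mono (subset_omcl P))

theorem UF.pos_iUnion (hU : UF U) {ι : Type} [Countable ι] {P : ι → Set A}
    (h : Pos U (⋃ i, P i)) : ∃ i, Pos U (P i) := by
  by_contra hcon
  push Not at hcon
  have h1 : ∀ i, ∃ F ∈ U, ¬ (P i ∩ F).Nonempty := by
    intro i
    have := hcon i
    unfold Pos at this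
    push Not at this
    obtain ⟨F, hF, h⟩ := this
    exact ⟨F, hF, by rw [h]; simp⟩
  choose F hF hPF using h1
  rcases isEmpty_or_nonempty ι with hι | hι
  · -- need a member of U
    have huniv : (Set.univ : Set A) ∈ U ∨ ¬ ∃ G, G ∈ U := by
      by_cases hG : ∃ G, G ∈ U
      · left
        exact hU.max _ (fun _ _ _ => Set.subset_univ _) (fun G hG => by
          simpa using hU.ne G hG)
      · exact Or.inr hG
    rcases huniv with h2 | h2
    · obtain ⟨x, hx, -⟩ := h _ h2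
      simp at hx
    · apply h2
      refine ⟨Set.univ, hU.max _ (fun _ _ _ => Set.subset_univ _) fun G hG => absurd ⟨G, hG⟩ h2⟩
  · obtain ⟨f, hf⟩ := exists_surjective_nat ι
    have h2 := hU.inter (fun n => F (f n)) (fun n => hF _)
    obtain ⟨x, hx1, hx2⟩ := h _ h2
    obtain ⟨i, hi⟩ := Set.mem_iUnion.1 hx1
    obtain ⟨n, rfl⟩ := hf i
    exact hPF (f n) ⟨x, hi, Set.mem_iInter.1 hx2 n⟩

theorem UF.univ_mem (hU : UF U) : (Set.univ : Set A) ∈ U :=
  hU.max _ (fun _ _ _ => Set.subset_univ _) (fun G hG => by simpa using hU.ne G hG)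

theorem UF.pos_of_mem (hU : UF U) {F : Set A} (hF : F ∈ U) : Pos U F := by
  intro G hG
  have := hU.inter (fun n => if n = 0 then F else G) (fun n => by split_ifs <;> assumption)
  obtain ⟨x, hx⟩ := hU.ne _ this
  rw [Set.mem_iInter] at hx
  exact ⟨x, by simpa using hx 0, by simpa using hx 1⟩

theorem UF.pos_inter (hU : UF U) {P F : Set A} (hP : Pos U P) (hF : F ∈ U) : Pos U (P ∩ F) := by
  intro G hG
  have := hU.inter (fun n => if n = 0 then F else G) (fun n => by split_ifs <;> assumption)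
  obtain ⟨x, hx1, hx2⟩ := hP _ this
  rw [Set.mem_iInter] at hx2
  exact ⟨x, ⟨hx1, by simpa using hx2 0⟩, by simpa using hx2 1⟩

end filter

section ops

variable {W : Type} [LinearOrder W] [OrderBot W] [WellFoundedLT W] [Om W]
variable {A : Type} [TopologicalSpace A]

structure Ops (W A : Type) (U : Set (Set A)) where
  f1 : W → ℕ → Set A
  f2 : W → A → ℕ → A
  f3 : W → A → ℕ → W
  h1 : ∀ d n, f1 d n ∈ U

def Gen {U : Set (Set A)} (O : Ops W A U) (δ : W) (k : A) : Prop :=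
  ∃ (MA : Set A) (MU : Set (Set A)), MU ⊆ U ∧ (∀ d < δ, ∀ n, O.f1 d n ∈ MU) ∧
    (∀ d < δ, ∀ x ∈ MA, ∀ n, O.f2 d x n ∈ MA ∧ O.f3 d x n < δ) ∧
    (∀ g < δ, ∃ g' < δ, g < g') ∧ ⊥ < δ ∧ MA.Countable ∧ ∀ F ∈ MU, k ∈ closure (F ∩ MA)

variable {U : Set (Set A)}

/-- combination of countably many -/
def Ops.comb (O : ℕ → Ops W A U) : Ops W A U where
  f1 d n := (O n.unpair.1).f1 d n.unpair.2
  f2 d x n := (O n.unpair.1).f2 d x n.unpair.2
  f3 d x n := (O n.unpair.1).f3 d x n.unpair.2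
  h1 d n := (O n.unpair.1).h1 d n.unpair.2

theorem Gen.of_comb {O : ℕ → Ops W A U} {δ : W} {k : A} (h : Gen (Ops.comb O) δ k) (i : ℕ) :
    Gen (O i) δ k := by
  obtain ⟨MA, MU, h1, h2, h3, h4⟩ := h
  refine ⟨MA, MU, h1, fun d hd n => ?_, fun d hd x hx n => ?_, h4⟩
  · simpa [Ops.comb] using h2 d hd (Nat.pair i n)
  · simpa [Ops.comb] using h3 d hd x hx (Nat.pair i n)

def GPos (U : Set (Set A)) (P : Set (W × A)) : Prop :=
  ∀ O : Ops W A U, ∃ δ k, Gen O δ k ∧ (δ, k) ∈ P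

theorem GPos.mono {P Q : Set (W × A)} (h : GPos U P) (hPQ : P ⊆ Q) : GPos U Q := by
  intro O
  obtain ⟨δ, k, h1, h2⟩ := h O
  exact ⟨δ, k, h1, hPQ h2⟩

theorem GPos.iUnion {ι : Type} [Countable ι] {P : ι → Set (W × A)} (h : GPos U (⋃ i, P i))
    (O₀ : Ops W A U) : ∃ i, GPos U (P i) := by
  by_contra hcon
  push Not at hcon
  unfold GPos at hcon
  push Not at hcon
  choose O hO using hcon
  rcases isEmpty_or_nonempty ι with hι | hι
  · obtain ⟨δ, k, -, h2⟩ := h O₀
    simp at h2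
  · obtain ⟨f, hf⟩ := exists_surjective_nat ι
    obtain ⟨δ, k, h1, h2⟩ := h (Ops.comb fun n => O (f n))
    obtain ⟨i, hi⟩ := Set.mem_iUnion.1 h2
    obtain ⟨n, rfl⟩ := hf i
    exact hO (f n) δ k (h1.of_comb n) hi

theorem GPos.inter_gen {P : Set (W × A)} (h : GPos U P) (O₀ : Ops W A U) :
    GPos U {p | p ∈ P ∧ Gen O₀ p.1 p.2} := by
  intro O
  obtain ⟨δ, k, h1, h2⟩ := h (Ops.comb fun n => if n = 0 then O else O₀)
  refine ⟨δ, k, by simpa using h1.of_comb 0, h2, by simpa using h1.of_comb 1⟩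

theorem Gen.mem {O : Ops W A U} {δ : W} {k : A} (hU : UF U) (h : Gen O δ k) {d : W} (hd : d < δ)
    (n : ℕ) : k ∈ O.f1 d n := by
  obtain ⟨MA, MU, h1, h2, h3, h4, h5, h6, h7⟩ := h
  exact hU.oc _ (h1 (h2 d hd n)) _ Set.inter_subset_left (h6.mono Set.inter_subset_right)
    (h7 _ (h2 d hd n))

theorem exists_gen (hA : CC A) (hU : UF U) (O : Ops W A U) : ∃ δ k, Gen O δ k := by
  classical
  -- choice of a point in finite intersections
  have hfin : ∀ l : List (Set A), (∀ F ∈ l, F ∈ U) → ∃ x, ∀ F ∈ l, x ∈ F := by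
    intro l hl
    have := hU.inter (fun n => if h : n < l.length then l.get ⟨n, h⟩ else Set.univ) (fun n => by
      split_ifs with h
      · exact hl _ (List.get_mem _ _)
      · exact hU.univ_mem)
    obtain ⟨x, hx⟩ := hU.ne _ this
    refine ⟨x, fun F hF => ?_⟩
    obtain ⟨⟨n, hn⟩, rfl⟩ := List.get_of_mem hF
    have := Set.mem_iInter.1 hx n
    simpa [hn] using this
  obtain ⟨x₀, -⟩ := hU.ne _ hU.univ_mem
  let pt : List (Set A) → A := fun l => if h : ∀ F ∈ l, F ∈ U then Classical.choose (hfin l h)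
    else x₀
  have hpt : ∀ l : List (Set A), (∀ F ∈ l, F ∈ U) → ∀ F ∈ l, pt l ∈ F := by
    intro l hl
    simp only [pt, dif_pos hl]
    exact Classical.choose_spec (hfin l hl)
  -- the step
  let S := {s : Set A × W // s.1.Countable}
  let MUof : W → Set (Set A) := fun d => {F | ∃ d' ≤ d, ∃ n, F = O.f1 d' n}
  have hMUof : ∀ d, (MUof d).Countable := by
    intro d
    have : MUof d ⊆ (fun p : W × ℕ => O.f1 p.1 p.2) '' (Set.Iic d ×ˢ Set.univ) := by
      rintro F ⟨d', hd', n, rfl⟩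
      exact ⟨(d', n), ⟨hd', trivial⟩, rfl⟩
    refine Set.Countable.mono this (Set.Countable.image ?_ _)
    have h1 : (Set.Iic d).Countable := by
      rw [← Set.Iio_insert]
      exact (Om.countable_Iio d).insert d
    exact h1.prod Set.countable_univ
  have hstep : ∀ s : S, ∃ t : S, s.1.2 < t.1.2 ∧ s.1.1 ⊆ t.1.1 ∧
      (∀ d ≤ s.1.2, ∀ x ∈ s.1.1, ∀ n, O.f2 d x n ∈ t.1.1 ∧ O.f3 d x n < t.1.2) ∧
      ∀ l : List (Set A), (∀ F ∈ l, F ∈ MUof s.1.2) → pt l ∈ t.1.1 := by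
    rintro ⟨⟨M, d⟩, hM⟩
    have hIic : (Set.Iic d).Countable := by
      rw [← Set.Iio_insert]
      exact (Om.countable_Iio d).insert d
    have h3 : ((fun p : (W × A) × ℕ => O.f3 p.1.1 p.1.2 p.2) ''
        ((Set.Iic d ×ˢ M) ×ˢ (Set.univ : Set ℕ))).Countable :=
      ((hIic.prod hM).prod Set.countable_univ).image _
    have h2 : ((fun p : (W × A) × ℕ => O.f2 p.1.1 p.1.2 p.2) ''
        ((Set.Iic d ×ˢ M) ×ˢ (Set.univ : Set ℕ))).Countable :=
      ((hIic.prod hM).prod Set.countable_univ).image _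
    obtain ⟨d', hd'⟩ := Om.bdd _ (h3.insert d)
    have h4 : (pt '' {l : List (Set A) | ∀ F ∈ l, F ∈ MUof d}).Countable := by
      apply Set.Countable.image
      have : {l : List (Set A) | ∀ F ∈ l, F ∈ MUof d} ⊆
          Set.range (List.map (Subtype.val : MUof d → Set A)) := by
        intro l hl
        rw [Set.range_list_map_coe]
        exact hl
      have hc : Countable (MUof d) := (hMUof d).to_subtype
      exact (Set.countable_range _).mono this
    refine ⟨⟨⟨M ∪ _ ∪ _, d'⟩, (hM.union h2).union h4⟩, hd' d (Set.mem_insert _ _),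
      Set.subset_union_left.trans Set.subset_union_left, ?_, ?_⟩
    · intro e he x hx n
      refine ⟨Or.inl (Or.inr ⟨((e, x), n), ⟨⟨he, hx⟩, trivial⟩, rfl⟩), ?_⟩
      exact hd' _ (Set.mem_insert_of_mem _ ⟨((e, x), n), ⟨⟨he, hx⟩, trivial⟩, rfl⟩)
    · intro l hl
      exact Or.inr ⟨l, hl, rfl⟩
  choose nx hnx using hstep
  let s : ℕ → S := fun n => Nat.rec ⟨⟨∅, ⊥⟩, Set.countable_empty⟩ (fun _ t => nx t) n
  have hs : ∀ n, s (n + 1) = nx (s n) := fun n => rfl
  have hlt : ∀ n, (s n).1.2 < (s (n + 1)).1.2 := fun n => by rw [hs]; exact (hnx _).1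
  have hmonoW : StrictMono fun n => (s n).1.2 := strictMono_nat_of_lt_succ hlt
  have hmonoA : Monotone fun n => (s n).1.1 :=
    monotone_nat_of_le_succ fun n => by rw [hs]; exact (hnx _).2.1
  -- least strict upper bound
  obtain ⟨b, hb⟩ := Om.bdd (Set.range fun n => (s n).1.2) (Set.countable_range _)
  have hbne : {b : W | ∀ n, (s n).1.2 < b}.Nonempty := ⟨b, fun n => hb _ ⟨n, rfl⟩⟩
  let δ := wellFounded_lt.min _ hbne
  have hδ1 : ∀ n, (s n).1.2 < δ := WellFounded.min_mem _ _ hbne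
  have hδ2 : ∀ g < δ, ∃ n, g ≤ (s n).1.2 := by
    intro g hg
    by_contra hcon
    push Not at hcon
    exact WellFounded.not_lt_min (wellFounded_lt (α := W)) {b : W | ∀ n, (s n).1.2 < b} hcon hg
  let MA : Set A := ⋃ n, (s n).1.1
  let MU : Set (Set A) := {F | ∃ d < δ, ∃ n, F = O.f1 d n}
  have hMUeq : MU ⊆ ⋃ n, MUof (s n).1.2 := by
    rintro F ⟨d, hd, j, rfl⟩
    obtain ⟨n, hn⟩ := hδ2 d hd
    exact Set.mem_iUnion.2 ⟨n, d, hn, j, rfl⟩
  have hMUc : MU.Countable := (Set.countable_iUnion fun n => hMUof _).mono hMUeq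
  have hMUU : MU ⊆ U := by
    rintro F ⟨d, hd, j, rfl⟩
    exact O.h1 d j
  have hbot : ⊥ < δ := lt_of_le_of_lt bot_le (hδ1 0)
  have hMUne : MU.Nonempty := ⟨_, ⊥, hbot, 0, rfl⟩
  obtain ⟨Fn, hFn⟩ := hMUc.exists_eq_range hMUne
  -- points
  have hMUof_mono : ∀ {a b : W}, a ≤ b → MUof a ⊆ MUof b := by
    rintro a b hab F ⟨d', hd', n, rfl⟩
    exact ⟨d', hd'.trans hab, n, rfl⟩
  have hpts : ∀ n, ∃ x ∈ MA, ∀ i ≤ n, x ∈ Fn i := by
    intro n
    let l := (List.range (n + 1)).map Fn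
    have hFnMU : ∀ i, Fn i ∈ MU := fun i => by rw [hFn]; exact ⟨i, rfl⟩
    have hl : ∀ F ∈ l, F ∈ MU := by
      intro F hF
      obtain ⟨i, -, rfl⟩ := List.mem_map.1 hF
      exact hFnMU i
    have : ∃ N, ∀ F ∈ l, F ∈ MUof (s N).1.2 := by
      have h5 : ∀ i, ∃ N, Fn i ∈ MUof (s N).1.2 := fun i => Set.mem_iUnion.1 (hMUeq (hFnMU i))
      choose N hN using h5
      refine ⟨(Finset.range (n + 1)).sup N, fun F hF => ?_⟩
      obtain ⟨i, hi, rfl⟩ := List.mem_map.1 hF
      refine hMUof_mono (hmonoW.monotone ?_) (hN i)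
      exact Finset.le_sup (f := N) (by simpa using hi)
    obtain ⟨N, hN⟩ := this
    refine ⟨pt l, Set.mem_iUnion.2 ⟨N + 1, ?_⟩, fun i hi => ?_⟩
    · rw [hs]
      exact (hnx _).2.2.2 l hN
    · apply hpt l (fun F hF => hMUU (hl F hF))
      exact List.mem_map.2 ⟨i, by simpa using Nat.lt_succ_of_le hi, rfl⟩
  choose x hxM hxF using hpts
  obtain ⟨k, hk⟩ := hA x
  refine ⟨δ, k, MA, MU, hMUU, fun d hd n => ⟨d, hd, n, rfl⟩, ?_, ?_, hbot,
    Set.countable_iUnion fun n => (s n).2, ?_⟩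
  · intro d hd y hy n
    obtain ⟨i, hi⟩ := Set.mem_iUnion.1 hy
    obtain ⟨j, hj⟩ := hδ2 d hd
    have h6 := (hnx (s (max i j))).2.2.1 d (hj.trans (hmonoW.monotone (le_max_right i j))) y
      (hmonoA (le_max_left i j) hi) n
    rw [← hs] at h6
    exact ⟨Set.mem_iUnion.2 ⟨max i j + 1, h6.1⟩, h6.2.trans (hδ1 (max i j + 1))⟩
  · intro g hg
    obtain ⟨n, hn⟩ := hδ2 g hg
    exact ⟨_, hδ1 (n + 1), hn.trans_lt (hlt n)⟩
  · intro F hF
    rw [hFn] at hF
    obtain ⟨n, rfl⟩ := hF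
    refine closure_mono ?_ (mem_closure_tail hk n)
    rintro _ ⟨j, hj, rfl⟩
    exact ⟨hxF j n hj, hxM j⟩

end ops

section reflection

variable {W : Type} [LinearOrder W] [OrderBot W] [WellFoundedLT W] [Om W]
variable {A : Type} [TopologicalSpace A] {U : Set (Set A)}

/-- reflection of properties of generic points -/
theorem refl (hU : UF U) {Pr ℬ : Type} (en : W → ℕ → Pr) (Ψ : Pr → W → A → ℬ → Prop)
    (O : ℬ → Set A) (hO : ∀ β, IsOpen (O β)) (hΨ : ∀ p δ k β, Ψ p δ k β → k ∈ O β) :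
    ∃ Q : Ops W A U, ∀ δ k, Gen Q δ k → ∀ d < δ, ∀ n, (∃ β, Ψ (en d n) δ k β) →
      ∃ δ', δ < δ' ∧ ∃ k' β, Ψ (en d n) δ' k' β ∧ k ∈ O β := by
  classical
  let Ext : Pr → W → A → Prop := fun p δ k => ∃ δ', δ < δ' ∧ ∃ k' β, Ψ p δ' k' β ∧ k ∈ O β
  let Bad : Pr → Set A := fun p => {k | ∃ δ, (∃ β, Ψ p δ k β) ∧ ¬ Ext p δ k}
  have h1 : ∀ p, ∃ F ∈ U, (Pos U (Bad p) → F = omcl (Bad p)) ∧ (¬ Pos U (Bad p) →
      ¬ (Bad p ∩ F).Nonempty) := by
    intro p
    by_cases hp : Pos U (Bad p)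
    · exact ⟨omcl (Bad p), hU.omcl_mem hp, fun _ => rfl, fun h => absurd hp h⟩
    · have hp' := hp
      unfold Pos at hp'
      push Not at hp'
      obtain ⟨F, hF, h⟩ := hp'
      exact ⟨F, hF, fun h => absurd h hp, fun _ => by rw [h]; simp⟩
  choose F hFU hF1 hF2 using h1
  have h2 : ∀ p (x : A), ∃ s : ℕ → A, x ∈ omcl (Bad p) →
      (∀ n, s n ∈ Bad p) ∧ x ∈ closure (Set.range s) := by
    intro p x
    by_cases hx : x ∈ omcl (Bad p)
    · obtain ⟨S, hS1, hS2, hS3⟩ := hx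
      have hne : S.Nonempty := by
        rw [← closure_nonempty_iff]; exact ⟨x, hS3⟩
      obtain ⟨s, hs⟩ := hS2.exists_eq_range hne
      refine ⟨s, fun _ => ⟨fun n => hS1 (by rw [hs]; exact ⟨n, rfl⟩), by rw [← hs]; exact hS3⟩⟩
    · exact ⟨fun _ => x, fun h => absurd h hx⟩
  choose s hs using h2
  have h3 : ∀ p (x : A), ∃ δ : W, x ∈ Bad p → (∃ β, Ψ p δ x β) ∧ ¬ Ext p δ x := by
    intro p x
    by_cases hx : x ∈ Bad p
    · obtain ⟨δ, hδ⟩ := hx
      exact ⟨δ, fun _ => hδ⟩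
    · exact ⟨⊥, fun h => absurd h hx⟩
  choose w hw using h3
  refine ⟨⟨fun d n => F (en d n), fun d x n => s (en d n.unpair.1) x n.unpair.2,
    fun d x n => w (en d n) x, fun d n => hFU _⟩, ?_⟩
  rintro δ k ⟨MA, MU, g1, g2, g3, g4, g5, g6, g7⟩ d hd n ⟨β, hβ⟩
  by_contra hext
  have hk : k ∈ Bad (en d n) := ⟨δ, ⟨β, hβ⟩, hext⟩
  have hF := g2 d hd n
  by_cases hp : Pos U (Bad (en d n))
  · have h4 : k ∈ closure (omcl (Bad (en d n)) ∩ MA) := by
      have := g7 _ hF
      simp only at this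
      rwa [hF1 _ hp] at this
    obtain ⟨x, hxO, hx1, hx2⟩ := mem_closure_iff.1 h4 (O β) (hO β) (hΨ _ _ _ _ hβ)
    obtain ⟨hs1, hs2⟩ := hs (en d n) x hx1
    obtain ⟨_, hyO, ⟨j, rfl⟩⟩ := mem_closure_iff.1 hs2 (O β) (hO β) hxO
    have hy : s (en d n) x j ∈ MA := by
      have := (g3 d hd x hx2 (Nat.pair n j)).1
      simpa using this
    have hy2 := (g3 d hd _ hy n).2
    obtain ⟨hw1, hw2⟩ := hw (en d n) _ (hs1 j)
    exact hw2 ⟨δ, hy2, k, β, hβ, hyO⟩
  · have h4 : k ∈ F (en d n) := hU.oc _ (g1 hF) _ Set.inter_subset_left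
      (g6.mono Set.inter_subset_right) (g7 _ hF)
    exact hF2 _ hp ⟨k, hk, h4⟩

/-- points of positive sets near a generic point, with witnesses below -/
theorem near (hU : UF U) {Pr : Type} (en : W → ℕ → Pr) (P : Pr → Set A) (wit : Pr → A → ℕ → W) :
    ∃ Q : Ops W A U, ∀ δ k, Gen Q δ k → ∀ d < δ, ∀ n, Pos U (P (en d n)) → ∀ O : Set A, IsOpen O →
      k ∈ O → ∃ k' ∈ P (en d n), k' ∈ O ∧ ∀ j, wit (en d n) k' j < δ := by
  classical
  have h1 : ∀ p, ∃ F ∈ U, (Pos U (P p) → F = omcl (P p)) := by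
    intro p
    by_cases hp : Pos U (P p)
    · exact ⟨omcl (P p), hU.omcl_mem hp, fun _ => rfl⟩
    · exact ⟨Set.univ, hU.univ_mem, fun h => absurd h hp⟩
  choose F hFU hF1 using h1
  have h2 : ∀ p (x : A), ∃ s : ℕ → A, x ∈ omcl (P p) →
      (∀ n, s n ∈ P p) ∧ x ∈ closure (Set.range s) := by
    intro p x
    by_cases hx : x ∈ omcl (P p)
    · obtain ⟨S, hS1, hS2, hS3⟩ := hx
      have hne : S.Nonempty := by
        rw [← closure_nonempty_iff]; exact ⟨x, hS3⟩
      obtain ⟨s, hs⟩ := hS2.exists_eq_range hne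
      refine ⟨s, fun _ => ⟨fun n => hS1 (by rw [hs]; exact ⟨n, rfl⟩), by rw [← hs]; exact hS3⟩⟩
    · exact ⟨fun _ => x, fun h => absurd h hx⟩
  choose s hs using h2
  refine ⟨⟨fun d n => F (en d n), fun d x n => s (en d n.unpair.1) x n.unpair.2,
    fun d x n => wit (en d n.unpair.1) x n.unpair.2, fun d n => hFU _⟩, ?_⟩
  rintro δ k ⟨MA, MU, g1, g2, g3, g4, g5, g6, g7⟩ d hd n hp O hO hkO
  have h4 : k ∈ closure (omcl (P (en d n)) ∩ MA) := by
    have := g7 _ (g2 d hd n)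
    simp only at this
    rwa [hF1 _ hp] at this
  obtain ⟨x, hxO, hx1, hx2⟩ := mem_closure_iff.1 h4 O hO hkO
  obtain ⟨hs1, hs2⟩ := hs (en d n) x hx1
  obtain ⟨_, hyO, ⟨j, rfl⟩⟩ := mem_closure_iff.1 hs2 O hO hxO
  have hy : s (en d n) x j ∈ MA := by
    have := (g3 d hd x hx2 (Nat.pair n j)).1
    simpa using this
  refine ⟨_, hs1 j, hyO, fun i => ?_⟩
  have := (g3 d hd _ hy (Nat.pair n i)).2
  simpa using this

theorem bound (hU : UF U) {Pr : Type} (en : W → ℕ → Pr) (h : Pr → W) :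
    ∃ Q : Ops W A U, ∀ δ k, Gen Q δ k → ∀ d < δ, ∀ n, h (en d n) < δ := by
  refine ⟨⟨fun _ _ => Set.univ, fun _ x _ => x, fun d _ n => h (en d n), fun _ _ => hU.univ_mem⟩, ?_⟩
  rintro δ k ⟨MA, MU, g1, g2, g3, g4, g5, g6, g7⟩ d hd n
  have : (MA).Nonempty := by
    have := g7 _ (g2 d hd 0)
    have h1 : (closure ((Set.univ : Set A) ∩ MA)).Nonempty := ⟨k, this⟩
    rw [closure_nonempty_iff] at h1
    simpa using h1
  obtain ⟨x, hx⟩ := this
  exact (g3 d hd x hx n).2

theorem Gen.bot_lt {Q : Ops W A U} {δ : W} {k : A} (h : Gen Q δ k) : ⊥ < δ := by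
  obtain ⟨MA, MU, g1, g2, g3, g4, g5, g6, g7⟩ := h
  exact g5

theorem Gen.lim {Q : Ops W A U} {δ : W} {k : A} (h : Gen Q δ k) : ∀ g < δ, ∃ g' < δ, g < g' := by
  obtain ⟨MA, MU, g1, g2, g3, g4, g5, g6, g7⟩ := h
  exact g4

end reflection

section big

variable {W : Type} [LinearOrder W] [OrderBot W] [WellFoundedLT W] [Om W]
variable {A : Type} [TopologicalSpace A] {U : Set (Set A)} {m : ℕ}

def Big (U : Set (Set A)) (C : Set (A × (Fin m → W))) : Prop :=
  ∀ g : W, Pos U {k | ∃ a, (k, a) ∈ C ∧ ∀ i, g ≤ a i}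

theorem Big.mono {C D : Set (A × (Fin m → W))} (h : Big U C) (hCD : C ⊆ D) : Big U D :=
  fun g => (h g).mono fun _ ⟨a, ha, hg⟩ => ⟨a, hCD ha, hg⟩

theorem bdd_range {ι : Type} [Countable ι] (f : ι → W) : ∃ b, ∀ i, f i < b := by
  obtain ⟨b, hb⟩ := Om.bdd (Set.range f) (Set.countable_range f)
  exact ⟨b, fun i => hb _ ⟨i, rfl⟩⟩

theorem Big.split (hU : UF U) {C : Set (A × (Fin m → W))} (h : Big U C) {ι : Type} [Countable ι]
    (D : ι → Set (A × (Fin m → W))) (g₀ : W) (hD : ∀ p ∈ C, (∀ i, g₀ ≤ p.2 i) → ∃ n, p ∈ D n) :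
    ∃ n, Big U (C ∩ D n) := by
  by_contra hcon
  push Not at hcon
  unfold Big at hcon
  push Not at hcon
  choose g hg using hcon
  obtain ⟨b, hb⟩ := bdd_range g
  have h1 : Pos U (⋃ n, {k | ∃ a, (k, a) ∈ C ∩ D n ∧ ∀ i, g n ≤ a i}) := by
    refine (h (max b g₀)).mono ?_
    rintro k ⟨a, ha, hga⟩
    obtain ⟨n, hn⟩ := hD _ ha (fun i => (le_max_right _ _).trans (hga i))
    exact Set.mem_iUnion.2 ⟨n, a, ⟨ha, hn⟩, fun i => ((hb n).le.trans (le_max_left _ _)).trans (hga i)⟩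
  obtain ⟨n, hn⟩ := hU.pos_iUnion h1
  exact hg n hn

theorem Big.nonempty (hU : UF U) {C : Set (A × (Fin m → W))} (h : Big U C) (g : W) :
    ∃ p ∈ C, ∀ i, g ≤ p.2 i := by
  obtain ⟨k, ⟨a, ha, hg⟩, -⟩ := h g _ hU.univ_mem
  exact ⟨(k, a), ha, hg⟩

theorem Big.high (hU : UF U) {C : Set (A × (Fin m → W))} (h : Big U C) :
    ∃ g₁ : W, ∀ (n : ℕ) (d : W), Big U {p ∈ C | ∀ i ξ, g₁ ≤ ξ → ξ < d → n < e ξ (p.2 i)} := by
  classical
  -- one n
  have h1 : ∀ n : ℕ, ∃ g₁ : W, ∀ d : W, Pos U {k | ∃ a, (k, a) ∈ C ∧ (∀ i, d ≤ a i) ∧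
      ∀ i ξ, g₁ ≤ ξ → ξ < d → n < e ξ (a i)} := by
    intro n
    by_contra hcon
    push Not at hcon
    choose D hD using hcon
    let x : ℕ → W := fun j => Nat.rec (motive := fun _ => W) ⊥ (fun _ t => max t (D t)) j
    have hx : ∀ j, x (j + 1) = max (x j) (D (x j)) := fun j => rfl
    obtain ⟨b, hb⟩ := bdd_range fun j => D (x j)
    have h2 : ∀ j, ¬ Pos U {k | ∃ a, (k, a) ∈ C ∧ (∀ i, D (x j) ≤ a i) ∧
      ∀ i ξ, x j ≤ ξ → ξ < D (x j) → n < e ξ (a i)} := fun j => hD (x j)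
    have h3 : Pos U {k | (∃ a, (k, a) ∈ C ∧ ∀ i, b ≤ a i) ∧ ∀ j, ¬ k ∈ {k | ∃ a, (k, a) ∈ C ∧
      (∀ i, D (x j) ≤ a i) ∧ ∀ i ξ, x j ≤ ξ → ξ < D (x j) → n < e ξ (a i)}} := by
      by_contra h4
      have h5 : Pos U (⋃ o : Option ℕ, (match o with
        | none => {k | (∃ a, (k, a) ∈ C ∧ ∀ i, b ≤ a i) ∧ ∀ j, ¬ k ∈ {k | ∃ a, (k, a) ∈ C ∧
          (∀ i, D (x j) ≤ a i) ∧ ∀ i ξ, x j ≤ ξ → ξ < D (x j) → n < e ξ (a i)}}
        | some j => {k | ∃ a, (k, a) ∈ C ∧ (∀ i, D (x j) ≤ a i) ∧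
          ∀ i ξ, x j ≤ ξ → ξ < D (x j) → n < e ξ (a i)} : Set A)) := by
        refine (h b).mono ?_
        intro k hk
        by_cases h6 : ∀ j, ¬ k ∈ {k | ∃ a, (k, a) ∈ C ∧
          (∀ i, D (x j) ≤ a i) ∧ ∀ i ξ, x j ≤ ξ → ξ < D (x j) → n < e ξ (a i)}
        · exact Set.mem_iUnion.2 ⟨none, hk, h6⟩
        · push Not at h6
          obtain ⟨j, hj⟩ := h6
          exact Set.mem_iUnion.2 ⟨some j, hj⟩
      obtain ⟨o, ho⟩ := hU.pos_iUnion h5
      cases o with
      | none => exact h4 ho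
      | some j => exact h2 j ho
    obtain ⟨k, ⟨⟨a, haC, hab⟩, hkn⟩, -⟩ := h3 _ hU.univ_mem
    have h4 : ∀ j, ∃ i ξ, x j ≤ ξ ∧ ξ < D (x j) ∧ e ξ (a i) ≤ n := by
      intro j
      by_contra h5
      push Not at h5
      exact hkn j ⟨a, haC, fun i => (hb j).le.trans (hab i), fun i ξ h6 h7 => h5 i ξ h6 h7⟩
    choose i ξ hξ1 hξ2 hξ3 using h4
    have hξmono : StrictMono ξ := by
      apply strictMono_nat_of_lt_succ
      intro j
      calc ξ j < D (x j) := hξ2 j
        _ ≤ x (j + 1) := by rw [hx]; exact le_max_right _ _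
        _ ≤ ξ (j + 1) := hξ1 (j + 1)
    obtain ⟨i₀, hi₀⟩ := Finite.exists_infinite_fiber i
    have hinf : (ξ '' (i ⁻¹' {i₀})).Infinite :=
      (Set.infinite_coe_iff.1 hi₀).image (hξmono.injective.injOn)
    apply hinf
    refine (E1 n (a i₀)).subset ?_
    rintro _ ⟨j, hj, rfl⟩
    have hj' : i j = i₀ := hj
    refine ⟨((hξ2 j).trans (hb j)).trans_le (hab i₀), ?_⟩
    rw [← hj']
    exact hξ3 j
  choose g₁ hg₁ using h1
  obtain ⟨b, hb⟩ := bdd_range g₁
  refine ⟨b, fun n d g => (hg₁ n (max g d)).mono ?_⟩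
  rintro k ⟨a, ha, h1, h2⟩
  exact ⟨a, ⟨ha, fun i ξ h3 h4 => h2 i ξ ((hb n).le.trans h3) (h4.trans_le (le_max_right _ _))⟩,
    fun i => (le_max_left _ _).trans (h1 i)⟩

end big

section GT

variable {W : Type} [LinearOrder W] [OrderBot W] [WellFoundedLT W] [Om W]

/-- the oscillation -/
noncomputable def osc (α β : W) : ℕ := asc ((L α β).map fun x => decide (e x β < e x α))

variable {A : Type} [TopologicalSpace A] {U : Set (Set A)} {m : ℕ}

abbrev Pr (W : Type) (m : ℕ) : Type := W × W × List (W × ℕ × (Fin m → ℕ))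

theorem countable_lists {α : Type} {s : Set α} (hs : s.Countable) :
    {l : List α | ∀ x ∈ l, x ∈ s}.Countable := by
  have hc : Countable s := hs.to_subtype
  rw [← Set.range_list_map_coe]
  exact Set.countable_range _

theorem exists_en (m : ℕ) : ∃ en : W → ℕ → Pr W m, ∀ (d : W) (p : Pr W m), p.1 ≤ d → p.2.1 ≤ d →
    (∀ g ∈ p.2.2, g.1 ≤ d) → ∃ n, en d n = p := by
  have h : ∀ d : W, ∃ f : ℕ → Pr W m, ∀ p : Pr W m, p.1 ≤ d → p.2.1 ≤ d →
    (∀ g ∈ p.2.2, g.1 ≤ d) → ∃ n, f n = p := by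
    intro d
    have hIic : (Set.Iic d).Countable := by
      rw [← Set.Iio_insert]
      exact (Om.countable_Iio d).insert d
    have h1 : {l : List (W × ℕ × (Fin m → ℕ)) | ∀ g ∈ l, g ∈ Set.Iic d ×ˢ
        (Set.univ : Set (ℕ × (Fin m → ℕ)))}.Countable :=
      countable_lists (hIic.prod (Set.to_countable _))
    have h2 : (Set.Iic d ×ˢ (Set.Iic d ×ˢ {l : List (W × ℕ × (Fin m → ℕ)) | ∀ g ∈ l,
        g ∈ Set.Iic d ×ˢ (Set.univ : Set (ℕ × (Fin m → ℕ)))})).Countable :=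
      hIic.prod (hIic.prod h1)
    obtain ⟨f, hf⟩ := h2.exists_eq_range ⟨(⊥, ⊥, []), by simp⟩
    refine ⟨f, fun p hp1 hp2 hp3 => ?_⟩
    have : p ∈ Set.range f := by
      rw [← hf]
      exact ⟨hp1, hp2, fun g hg => ⟨hp3 g hg, trivial⟩⟩
    exact this
  choose en hen using h
  exact ⟨en, hen⟩

theorem list_bound {α : Type} {δ : W} (hδ : ∀ g < δ, ∃ g' < δ, g < g') (hb : ⊥ < δ) (l : List α)
    (f : α → W) (hl : ∀ x ∈ l, f x < δ) : ∃ d < δ, ∀ x ∈ l, f x < d := by
  induction l with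
  | nil => exact ⟨⊥, hb, by simp⟩
  | cons a l ih =>
    obtain ⟨d, hd, h⟩ := ih fun x hx => hl x (List.mem_cons_of_mem _ hx)
    obtain ⟨d', hd', h'⟩ := hδ _ (hl a List.mem_cons_self)
    refine ⟨max d d', max_lt hd hd', fun x hx => ?_⟩
    rcases List.mem_cons.1 hx with rfl | hx
    · exact h'.trans_le (le_max_right _ _)
    · exact (h x hx).trans_le (le_max_left _ _)

theorem finite_bound {δ : W} (hδ : ∀ g < δ, ∃ g' < δ, g < g') (hb : ⊥ < δ) {S : Set W}
    (hS : S.Finite) (hl : ∀ x ∈ S, x < δ) : ∃ d < δ, ∀ x ∈ S, x < d := by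
  obtain ⟨d, hd, h⟩ := list_bound hδ hb hS.toFinset.toList id (by simpa using hl)
  exact ⟨d, hd, fun x hx => h x (by simpa using hx)⟩

theorem Big.values (hU : UF U) {C : Set (A × (Fin m → W))} (h : Big U C) (l : List W) :
    ∃ q₀ ∈ C, Big U {q ∈ C | ∀ x ∈ l, ∀ i, e x (q.2 i) = e x (q₀.2 i)} := by
  obtain ⟨s, hs⟩ := h.split hU (ι := List (Fin m → ℕ))
    (fun s => {q | l.map (fun x i => e x (q.2 i)) = s}) ⊥ (fun q _ _ => ⟨_, rfl⟩)
  obtain ⟨q₀, hq₀, -⟩ := hs.nonempty hU ⊥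
  refine ⟨q₀, hq₀.1, hs.mono ?_⟩
  rintro q ⟨hq1, hq2⟩
  refine ⟨hq1, fun x hx i => ?_⟩
  have h1 : l.map (fun x i => e x (q.2 i)) = l.map (fun x i => e x (q₀.2 i)) := by
    rw [hq2]; exact hq₀.2.symm
  rw [List.map_inj_left] at h1
  exact congrFun (h1 x hx) i

/-- the relation determined by finitely many values -/
def CG (AA : Set (A × (Fin m → W))) (G : List (W × ℕ × (Fin m → ℕ))) : Set (A × (Fin m → W)) :=
  {p ∈ AA | ∀ g ∈ G, ∀ i, e g.1 (p.2 i) = g.2.2 i}

/-- pattern -/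
def pat (i : Fin m) (G : List (W × ℕ × (Fin m → ℕ))) : List Bool :=
  G.map fun g => decide (g.2.1 < g.2.2 i)

structure Good (U : Set (Set A)) (AA : Set (A × (Fin m → W))) (BB : Set (A × W × W)) (δ : W) (k : A)
    (b : W) (G : List (W × ℕ × (Fin m → ℕ))) : Prop where
  mem : ∃ μ, δ ≤ μ ∧ (k, μ, b) ∈ BB
  eqL : L δ b = G.map Prod.fst
  val : ∀ g ∈ G, e g.1 b = g.2.1
  big : Big U (CG AA G)

def Psi (U : Set (Set A)) (AA : Set (A × (Fin m → W))) (BB : Set (A × W × W)) (p : Pr W m) (δ : W)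
    (k : A) (β : W × W) : Prop :=
  δ ≤ β.1 ∧ (k, β.1, β.2) ∈ BB ∧ L δ β.2 = p.2.2.map Prod.fst ∧ (∀ g ∈ p.2.2, e g.1 β.2 = g.2.1) ∧
    (∀ ξ, p.2.1 < ξ → ξ < δ → ∀ x ∈ L ξ δ, p.1 < x) ∧
    Big U {q ∈ CG AA p.2.2 | ∀ i ξ, p.1 ≤ ξ → ξ < δ → e ξ (q.2 i) = e ξ β.2}

theorem step1 (hU : UF U) {AA : Set (A × (Fin m → W))} {BB : Set (A × W × W)}
    (hle : ∀ k μ b, (k, μ, b) ∈ BB → μ ≤ b) {δ : W} {k : A} (hδ : ∀ g < δ, ∃ g' < δ, g < g')
    (hb : ⊥ < δ)
    (hR : ∀ p : Pr W m, p.1 < δ → p.2.1 < δ → (∀ g ∈ p.2.2, g.1 < δ) →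
      (∃ β, Psi U AA BB p δ k β) → ∃ δ', δ < δ' ∧ ∃ k' β, Psi U AA BB p δ' k' β ∧
        (k, β.1, β.2) ∈ BB)
    {b : W} {G : List (W × ℕ × (Fin m → ℕ))} (h : Good U AA BB δ k b G) {γ₀ : W} (hγ₀ : γ₀ < δ) :
    ∃ b' G', G' ≠ [] ∧ Good U AA BB δ k b' (G ++ G') ∧
      ∀ g ∈ G', γ₀ ≤ g.1 ∧ g.1 < δ ∧ ∀ i, g.2.2 i = g.2.1 := by
  obtain ⟨⟨μ, hμ, hB⟩, hL, he, hbig⟩ := h
  have hδb : δ ≤ b := hμ.trans (hle _ _ _ hB)
  have hGδ : ∀ g ∈ G, g.1 < δ := by
    intro g hg
    apply L_lt hb b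
    rw [hL]
    exact List.mem_map.2 ⟨g, hg, rfl⟩
  have hc : Countable (Set.Iio δ) := (Om.countable_Iio δ).to_subtype
  obtain ⟨⟨γ₁, hγ₁⟩, h1⟩ := hbig.split hU (ι := Set.Iio δ)
    (fun γ => {q | ∀ i ξ, γ.1 ≤ ξ → ξ < δ → e ξ (q.2 i) = e ξ b}) δ (by
      intro q hq hqδ
      have hfin : (⋃ i, {ξ | ξ < δ ∧ e ξ (q.2 i) ≠ e ξ b}).Finite :=
        Set.finite_iUnion fun i => E2' δ (q.2 i) b (hqδ i) hδb
      obtain ⟨d, hd, h⟩ := finite_bound hδ hb hfin (by
        intro x hx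
        obtain ⟨i, hi⟩ := Set.mem_iUnion.1 hx
        exact hi.1)
      refine ⟨⟨d, hd⟩, fun i ξ h2 h3 => ?_⟩
      by_contra h4
      exact absurd (h ξ (Set.mem_iUnion.2 ⟨i, h3, h4⟩)) (not_lt.2 h2))
  obtain ⟨γ₂, hγ₂, h2⟩ := list_bound hδ hb G Prod.fst hGδ
  let γ := max γ₀ (max γ₁ γ₂)
  have hγ : γ < δ := max_lt hγ₀ (max_lt hγ₁ hγ₂)
  obtain ⟨x₀, hx₀, hF2⟩ := F2 hδ hγ
  obtain ⟨δ', hδ', k', ⟨μ', b'⟩, ⟨g1, g2, g3, g4, g5, g6⟩, g7⟩ := hR (γ, x₀, G) hγ hx₀ hGδ
    ⟨(μ, b), hμ, hB, hL, he, hF2, h1.mono (by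
      rintro q ⟨hq1, hq2⟩
      exact ⟨hq1, fun i ξ h3 h4 => hq2 i ξ
        (((le_max_left γ₁ γ₂).trans (le_max_right γ₀ _)).trans h3) h4⟩)⟩
  simp only at g1 g2 g3 g4 g5 g6 g7
  have hF1 : L δ b' = L δ' b' ++ L δ δ' := by
    apply F1 b' δ δ' hδ'.le (g1.trans (hle _ _ _ g2))
    intro x hx y hy
    rw [g3] at hx
    obtain ⟨g, hg, rfl⟩ := List.mem_map.1 hx
    exact ((h2 g hg).trans_le ((le_max_right γ₁ γ₂).trans (le_max_right γ₀ _))).trans
      (g5 δ hx₀ hδ' y hy)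
  refine ⟨b', (L δ δ').map (fun x => (x, e x b', fun _ => e x b')), ?_, ⟨⟨μ', hδ'.le.trans g1, g7⟩,
    ?_, ?_, ?_⟩, ?_⟩
  · simpa using L_ne_nil hδ'
  · rw [hF1, g3, List.map_append, List.map_map]
    congr 1
    symm
    exact List.map_id _
  · intro g hg
    rcases List.mem_append.1 hg with hg | hg
    · exact g4 g hg
    · obtain ⟨x, -, rfl⟩ := List.mem_map.1 hg
      rfl
  · refine g6.mono ?_
    rintro q ⟨hq1, hq2⟩
    refine ⟨hq1.1, fun g hg i => ?_⟩
    rcases List.mem_append.1 hg with hg | hg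
    · exact hq1.2 g hg i
    · obtain ⟨x, hx, rfl⟩ := List.mem_map.1 hg
      exact hq2 i x (g5 δ hx₀ hδ' x hx).le ((L_lt hb δ' x hx).trans hδ')
  · intro g hg
    obtain ⟨x, hx, rfl⟩ := List.mem_map.1 hg
    exact ⟨(le_max_left γ₀ _).trans (g5 δ hx₀ hδ' x hx).le, L_lt hb δ' x hx, fun i => rfl⟩

theorem step2 (hU : UF U) {AA : Set (A × (Fin m → W))} {BB : Set (A × W × W)}
    (hle : ∀ k μ b, (k, μ, b) ∈ BB → μ ≤ b) {δ : W} {k : A} (hδ : ∀ g < δ, ∃ g' < δ, g < g')
    (hb : ⊥ < δ)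
    (hR : ∀ p : Pr W m, p.1 < δ → p.2.1 < δ → (∀ g ∈ p.2.2, g.1 < δ) →
      (∃ β, Psi U AA BB p δ k β) → ∃ δ', δ < δ' ∧ ∃ k' β, Psi U AA BB p δ' k' β ∧
        (k, β.1, β.2) ∈ BB)
    (hH : ∀ G : List (W × ℕ × (Fin m → ℕ)), (∀ g ∈ G, g.1 < δ) → Big U (CG AA G) →
      ∃ g₁ < δ, ∀ (n : ℕ) (d : W), Big U {p ∈ CG AA G | ∀ i ξ, g₁ ≤ ξ → ξ < d → n < e ξ (p.2 i)})
    {b : W} {G : List (W × ℕ × (Fin m → ℕ))} (h : Good U AA BB δ k b G) :
    ∃ b' G', G' ≠ [] ∧ Good U AA BB δ k b' (G ++ G') ∧ ∀ g ∈ G', ∀ i, g.2.1 < g.2.2 i := by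
  have hGδ : ∀ g ∈ G, g.1 < δ := by
    intro g hg
    apply L_lt hb b
    rw [h.eqL]
    exact List.mem_map.2 ⟨g, hg, rfl⟩
  obtain ⟨g₁, hg₁, hH'⟩ := hH G hGδ h.big
  obtain ⟨b', G₁, hne, hgood, hG₁⟩ := step1 hU hle hδ hb hR h hg₁
  obtain ⟨N, hN⟩ : ∃ N : ℕ, ∀ g ∈ G₁, g.2.1 ≤ N := by
    refine ⟨(G₁.map fun g => g.2.1).sum, fun g hg => ?_⟩
    exact List.single_le_sum (fun _ _ => Nat.zero_le _) _ (List.mem_map.2 ⟨g, hg, rfl⟩)
  obtain ⟨q₀, hq₀, hbig⟩ := (hH' N δ).values hU (G₁.map Prod.fst)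
  refine ⟨b', G₁.map (fun g => (g.1, g.2.1, fun i => e g.1 (q₀.2 i))), by simpa using hne,
    ⟨hgood.mem, ?_, ?_, ?_⟩, ?_⟩
  · rw [hgood.eqL, List.map_append, List.map_append, List.map_map]
    rfl
  · intro g hg
    rcases List.mem_append.1 hg with hg | hg
    · exact hgood.val g (List.mem_append_left _ hg)
    · obtain ⟨g', hg', rfl⟩ := List.mem_map.1 hg
      exact hgood.val g' (List.mem_append_right _ hg')
  · refine hbig.mono ?_
    rintro q ⟨⟨hq1, hq2⟩, hq3⟩
    refine ⟨hq1.1, fun g hg i => ?_⟩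
    rcases List.mem_append.1 hg with hg | hg
    · exact hq1.2 g hg i
    · obtain ⟨g', hg', rfl⟩ := List.mem_map.1 hg
      exact hq3 g'.1 (List.mem_map.2 ⟨g', hg', rfl⟩) i
  · intro g hg i
    obtain ⟨g', hg', rfl⟩ := List.mem_map.1 hg
    exact (hN g' hg').trans_lt (hq₀.2 i g'.1 (hG₁ g' hg').1 (hG₁ g' hg').2.1)

theorem pat_append (i : Fin m) (G H : List (W × ℕ × (Fin m → ℕ))) :
    pat i (G ++ H) = pat i G ++ pat i H := List.map_append

theorem iterate (hU : UF U) {AA : Set (A × (Fin m → W))} {BB : Set (A × W × W)}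
    (hle : ∀ k μ b, (k, μ, b) ∈ BB → μ ≤ b) {δ : W} {k : A} (hδ : ∀ g < δ, ∃ g' < δ, g < g')
    (hb : ⊥ < δ)
    (hR : ∀ p : Pr W m, p.1 < δ → p.2.1 < δ → (∀ g ∈ p.2.2, g.1 < δ) →
      (∃ β, Psi U AA BB p δ k β) → ∃ δ', δ < δ' ∧ ∃ k' β, Psi U AA BB p δ' k' β ∧
        (k, β.1, β.2) ∈ BB)
    (hH : ∀ G : List (W × ℕ × (Fin m → ℕ)), (∀ g ∈ G, g.1 < δ) → Big U (CG AA G) →
      ∃ g₁ < δ, ∀ (n : ℕ) (d : W), Big U {p ∈ CG AA G | ∀ i ξ, g₁ ≤ ξ → ξ < d → n < e ξ (p.2 i)})
    (hAA : Big U AA) (hst : ∃ μ b, δ ≤ μ ∧ (k, μ, b) ∈ BB) (n : ℕ) :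
    ∃ (b : ℕ → W) (G : ℕ → List (W × ℕ × (Fin m → ℕ))), (∀ j ≤ n, Good U AA BB δ k (b j) (G j)) ∧
      (∀ j ≤ n, ∀ i, (pat i (G j)).getLast? = some true) ∧
      (∀ j ≤ n, ∀ i, asc (pat i (G j)) = asc (pat i (G 0)) + j) ∧
      (∀ j ≤ n, ∀ g ∈ G j, g ∈ G n) := by
  induction n with
  | zero =>
    obtain ⟨μ, b, h1, h2⟩ := hst
    obtain ⟨q₀, hq₀, hbig⟩ := hAA.values hU (L δ b)
    have hgood : Good U AA BB δ k b ((L δ b).map fun x => (x, e x b, fun i => e x (q₀.2 i))) := by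
      refine ⟨⟨μ, h1, h2⟩, ?_, ?_, ?_⟩
      · rw [List.map_map]
        symm
        exact List.map_id _
      · intro g hg
        obtain ⟨x, -, rfl⟩ := List.mem_map.1 hg
        rfl
      · refine hbig.mono ?_
        rintro q ⟨hq1, hq2⟩
        refine ⟨hq1, fun g hg i => ?_⟩
        obtain ⟨x, hx, rfl⟩ := List.mem_map.1 hg
        exact hq2 x hx i
    obtain ⟨b', G', hne, hg', hlt⟩ := step2 hU hle hδ hb hR hH hgood
    refine ⟨fun _ => b', fun _ => _, fun _ _ => hg', fun _ _ i => ?_, fun j hj i => ?_,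
      fun _ _ g hg => hg⟩
    · rw [pat_append]
      apply getLast?_append_true
      · intro x hx
        obtain ⟨g, hg, rfl⟩ := List.mem_map.1 hx
        simpa using hlt g hg i
      · simpa [pat] using hne
    · have : j = 0 := by omega
      simp [this]
  | succ n ih =>
    obtain ⟨b, G, h1, h2, h3, h4⟩ := ih
    obtain ⟨b₁, G₁, hne₁, hg₁, he₁⟩ := step1 hU hle hδ hb hR (h1 n le_rfl) hb
    obtain ⟨b₂, G₂, hne₂, hg₂, hlt₂⟩ := step2 hU hle hδ hb hR hH hg₁
    refine ⟨fun j => if j ≤ n then b j else b₂, fun j => if j ≤ n then G j else G n ++ G₁ ++ G₂,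
      fun j hj => ?_, fun j hj i => ?_, fun j hj i => ?_, fun j hj g hg => ?_⟩
    · by_cases hjn : j ≤ n
      · simpa only [if_pos hjn] using h1 j hjn
      · simpa only [if_neg hjn] using hg₂
    · by_cases hjn : j ≤ n
      · simpa only [if_pos hjn] using h2 j hjn i
      · simp only [if_neg hjn]
        rw [pat_append]
        apply getLast?_append_true
        · intro x hx
          obtain ⟨g, hg, rfl⟩ := List.mem_map.1 hx
          simpa using hlt₂ g hg i
        · simpa [pat] using hne₂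
    · by_cases hjn : j ≤ n
      · simpa only [if_pos hjn, if_pos (Nat.zero_le n)] using h3 j hjn i
      · simp only [if_neg hjn, if_pos (Nat.zero_le n)]
        rw [pat_append, pat_append, List.append_assoc, asc_append_block, h3 n le_rfl i]
        · omega
        · intro x hx
          obtain ⟨g, hg, rfl⟩ := List.mem_map.1 hx
          simp [(he₁ g hg).2.2 i]
        · simpa [pat] using hne₁
        · intro x hx
          obtain ⟨g, hg, rfl⟩ := List.mem_map.1 hx
          simpa using hlt₂ g hg i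
        · simpa [pat] using hne₂
    · have hn : ¬ (n + 1 ≤ n) := by omega
      simp only [if_neg hn]
      by_cases hjn : j ≤ n
      · simp only [if_pos hjn] at hg
        exact List.mem_append_left _ (List.mem_append_left _ (h4 j hjn g hg))
      · simpa only [if_neg hjn] using hg

theorem GT (hU : UF U) {AA : Set (A × (Fin m → W))} (hAA : Big U AA) {BB : Set (A × W × W)}
    (hle : ∀ k μ b, (k, μ, b) ∈ BB → μ ≤ b) (hop : ∀ μ b, IsOpen {k | (k, μ, b) ∈ BB})
    (hG : GPos U {p : W × A | ∃ μ b, p.1 ≤ μ ∧ (p.2, μ, b) ∈ BB}) (n : ℕ) :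
    ∃ k a, ∃ μ b : ℕ → W, (k, a) ∈ AA ∧ (∀ j ≤ n, (k, μ j, b j) ∈ BB ∧ ∀ i, a i < μ j) ∧
      ∀ i, ∀ j ≤ n, osc (a i) (b j) = osc (a i) (b 0) + j := by
  classical
  obtain ⟨en, hen⟩ := exists_en (W := W) m
  obtain ⟨Q₁, hQ₁⟩ := refl hU en (Psi U AA BB) (fun β => {k | (k, β.1, β.2) ∈ BB})
    (fun β => hop _ _) (fun p δ k β h => h.2.1)
  -- witnesses for near
  have hac : ∀ (p : Pr W m) (k : A), ∃ a : Fin m → W,
      (k ∈ {k | ∃ a, (k, a) ∈ CG AA p.2.2 ∧ ∀ i, p.2.1 < a i}) →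
      (k, a) ∈ CG AA p.2.2 ∧ ∀ i, p.2.1 < a i := by
    intro p k
    by_cases h : k ∈ {k | ∃ a, (k, a) ∈ CG AA p.2.2 ∧ ∀ i, p.2.1 < a i}
    · obtain ⟨a, ha⟩ := h
      exact ⟨a, fun _ => ha⟩
    · exact ⟨fun _ => ⊥, fun h' => absurd h' h⟩
  choose ac hac using hac
  obtain ⟨Q₂, hQ₂⟩ := near hU en (fun p => {k | ∃ a, (k, a) ∈ CG AA p.2.2 ∧ ∀ i, p.2.1 < a i})
    (fun p k j => if h : j < m then ac p k ⟨j, h⟩ else ⊥)
  have hhi : ∀ G : List (W × ℕ × (Fin m → ℕ)), ∃ g₁ : W, Big U (CG AA G) →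
      ∀ (n : ℕ) (d : W), Big U {p ∈ CG AA G | ∀ i ξ, g₁ ≤ ξ → ξ < d → n < e ξ (p.2 i)} := by
    intro G
    by_cases h : Big U (CG AA G)
    · obtain ⟨g₁, hg₁⟩ := h.high hU
      exact ⟨g₁, fun _ => hg₁⟩
    · exact ⟨⊥, fun h' => absurd h' h⟩
  choose hi hhi using hhi
  obtain ⟨Q₃, hQ₃⟩ := bound hU en (fun p : Pr W m => hi p.2.2)
  obtain ⟨δ, k, hgen, μ₀, b₀, hμ₀, hb₀⟩ := hG (Ops.comb fun n => if n = 0 then Q₁ else
    if n = 1 then Q₂ else Q₃)
  have hgen₁ : Gen Q₁ δ k := by simpa using hgen.of_comb 0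
  have hgen₂ : Gen Q₂ δ k := by simpa using hgen.of_comb 1
  have hgen₃ : Gen Q₃ δ k := by simpa using hgen.of_comb 2
  have hδ := hgen.lim
  have hb := hgen.bot_lt
  have hpar : ∀ p : Pr W m, p.1 < δ → p.2.1 < δ → (∀ g ∈ p.2.2, g.1 < δ) →
      ∃ d < δ, ∃ n, en d n = p := by
    intro p h1 h2 h3
    obtain ⟨d, hd, h⟩ := list_bound hδ hb p.2.2 Prod.fst h3
    refine ⟨max d (max p.1 p.2.1), max_lt hd (max_lt h1 h2), ?_⟩
    exact hen _ p ((le_max_left _ _).trans (le_max_right _ _))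
      ((le_max_right _ _).trans (le_max_right _ _)) fun g hg => (h g hg).le.trans (le_max_left _ _)
  have hR : ∀ p : Pr W m, p.1 < δ → p.2.1 < δ → (∀ g ∈ p.2.2, g.1 < δ) →
      (∃ β, Psi U AA BB p δ k β) → ∃ δ', δ < δ' ∧ ∃ k' β, Psi U AA BB p δ' k' β ∧
        (k, β.1, β.2) ∈ BB := by
    intro p h1 h2 h3 h4
    obtain ⟨d, hd, n, rfl⟩ := hpar p h1 h2 h3
    exact hQ₁ δ k hgen₁ d hd n h4
  have hH : ∀ G : List (W × ℕ × (Fin m → ℕ)), (∀ g ∈ G, g.1 < δ) → Big U (CG AA G) →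
      ∃ g₁ < δ, ∀ (n : ℕ) (d : W),
        Big U {p ∈ CG AA G | ∀ i ξ, g₁ ≤ ξ → ξ < d → n < e ξ (p.2 i)} := by
    intro G hGδ hbig
    obtain ⟨d, hd, n, hn⟩ := hpar (⊥, ⊥, G) hb hb hGδ
    refine ⟨hi G, ?_, hhi G hbig⟩
    have := hQ₃ δ k hgen₃ d hd n
    rwa [hn] at this
  obtain ⟨b, G, h1, h2, h3, h4⟩ := iterate hU hle hδ hb hR hH hAA ⟨μ₀, b₀, hμ₀, hb₀⟩ n
  have hmu : ∀ j, ∃ μ, j ≤ n → δ ≤ μ ∧ (k, μ, b j) ∈ BB := by
    intro j
    by_cases hj : j ≤ n
    · obtain ⟨μ, hμ⟩ := (h1 j hj).mem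
      exact ⟨μ, fun _ => hμ⟩
    · exact ⟨⊥, fun h => absurd h hj⟩
  choose μ hμ using hmu
  have hGδ : ∀ g ∈ G n, g.1 < δ := by
    intro g hg
    apply L_lt hb (b n)
    rw [(h1 n le_rfl).eqL]
    exact List.mem_map.2 ⟨g, hg, rfl⟩
  have hδb : ∀ j ≤ n, δ ≤ b j := fun j hj => (hμ j hj).1.trans (hle _ _ _ (hμ j hj).2)
  obtain ⟨γ₁, hγ₁, hγ₁'⟩ := list_bound hδ hb (G n) Prod.fst hGδ
  have hfin : (⋃ j ∈ Set.Iic n, {ξ | ξ < δ ∧ e ξ δ ≠ e ξ (b j)}).Finite :=
    (Set.finite_Iic n).biUnion fun j hj => E2 (b j) δ (hδb j hj)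
  obtain ⟨γ₂, hγ₂, hγ₂'⟩ := finite_bound hδ hb hfin (by
    intro x hx
    simp only [Set.mem_iUnion] at hx
    obtain ⟨j, -, hx⟩ := hx
    exact hx.1)
  obtain ⟨x₀, hx₀, hF2⟩ := F2 hδ (max_lt hγ₁ hγ₂)
  have hpos : Pos U {k | ∃ a, (k, a) ∈ CG AA (G n) ∧ ∀ i, x₀ < a i} := by
    obtain ⟨x₁, -, hx₁⟩ := hδ x₀ hx₀
    refine ((h1 n le_rfl).big x₁).mono ?_
    rintro k ⟨a, ha, hx⟩
    exact ⟨a, ha, fun i => hx₁.trans_le (hx i)⟩
  obtain ⟨d, hd, n', hn'⟩ := hpar (⊥, x₀, G n) hb hx₀ hGδ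
  obtain ⟨k', hk'P, hk'O, hk'w⟩ := hQ₂ δ k hgen₂ d hd n' (by rw [hn']; exact hpos)
    (⋂ j ∈ Set.Iic n, {k | (k, μ j, b j) ∈ BB})
    ((Set.finite_Iic n).isOpen_biInter fun j _ => hop _ _)
    (Set.mem_iInter₂.2 fun j hj => (hμ j hj).2)
  rw [hn'] at hk'P hk'w
  obtain ⟨ha1, ha2⟩ := hac _ _ hk'P
  simp only at ha1 ha2 hk'w
  set a := ac (⊥, x₀, G n) k' with ha
  have haδ : ∀ i, a i < δ := by
    intro i
    have := hk'w i.1
    rw [dif_pos i.2] at this
    exact this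
  refine ⟨k', a, μ, b, ha1.1, fun j hj => ⟨Set.mem_iInter₂.1 hk'O j hj, fun i =>
    (haδ i).trans_le (hμ j hj).1⟩, ?_⟩
  have key : ∀ i, ∀ j ≤ n, osc (a i) (b j) = asc (pat i (G j)) +
      asc ((L (a i) δ).map fun x => decide (e x δ < e x (a i))) := by
    intro i j hj
    have hai : ⊥ < a i := bot_le.trans_lt (ha2 i)
    have hF1 : L (a i) (b j) = L δ (b j) ++ L (a i) δ := by
      apply F1 (b j) (a i) δ (haδ i).le (hδb j hj)
      intro x hx y hy
      rw [(h1 j hj).eqL] at hx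
      obtain ⟨g, hg, rfl⟩ := List.mem_map.1 hx
      exact ((hγ₁' g (h4 j hj g hg)).trans_le (le_max_left _ _)).trans
        (hF2 (a i) (ha2 i) (haδ i) y hy)
    unfold osc
    rw [hF1, List.map_append]
    have e1 : (L δ (b j)).map (fun x => decide (e x (b j) < e x (a i))) = pat i (G j) := by
      rw [(h1 j hj).eqL, List.map_map, pat]
      apply List.map_congr_left
      intro g hg
      simp only [Function.comp]
      rw [(h1 j hj).val g hg, ha1.2 g (h4 j hj g hg) i]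
    have e2 : (L (a i) δ).map (fun x => decide (e x (b j) < e x (a i))) =
        (L (a i) δ).map (fun x => decide (e x δ < e x (a i))) := by
      apply List.map_congr_left
      intro x hx
      have hx1 : x < δ := (L_lt hai δ x hx).trans (haδ i)
      have hx2 := hF2 (a i) (ha2 i) (haδ i) x hx
      have : e x δ = e x (b j) := by
        by_contra hne
        have := hγ₂' x (by
          simp only [Set.mem_iUnion]
          exact ⟨j, hj, hx1, hne⟩)
        exact absurd (this.trans_le (le_max_right γ₁ γ₂)) (not_lt.2 hx2.le)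
      rw [this]
    rw [e1, e2, asc_append_true _ _ (h2 j hj i)]
  intro i j hj
  rw [key i j hj, key i 0 (Nat.zero_le n), h3 j hj i]
  omega

end GT

section unitcase

variable {W : Type} [LinearOrder W] [OrderBot W] [WellFoundedLT W] [Om W]

theorem uf_unit : UF ({Set.univ} : Set (Set Unit)) where
  oc := by
    rintro F rfl S - -
    exact Set.subset_univ _
  ne := by
    rintro F rfl
    exact Set.univ_nonempty
  inter := by
    intro F hF
    have : (⋂ n, F n) = Set.univ := Set.iInter_eq_univ.2 fun n => hF n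
    exact this
  max := by
    intro F _ h
    obtain ⟨x, hx, -⟩ := h Set.univ rfl
    have : F = Set.univ := by
      ext y
      simpa using hx
    exact this

theorem cc_unit : CC Unit := fun x => ⟨(), by
  have : x = fun _ => () := rfl
  exact (tendsto_const_nhds : Tendsto (fun _ : ℕ => ()) atTop (𝓝 ())).mapClusterPt⟩

theorem pos_unit {P : Set Unit} (h : () ∈ P) : Pos ({Set.univ} : Set (Set Unit)) P := by
  rintro F rfl
  exact ⟨(), h, trivial⟩

theorem closed_pt {R : Type} (en : W → ℕ → R) (h : R → W) :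
    ∃ δ : W, (∀ g < δ, ∃ g' < δ, g < g') ∧ ⊥ < δ ∧ ∀ d < δ, ∀ n, h (en d n) < δ := by
  obtain ⟨Q, hQ⟩ := bound uf_unit en h
  obtain ⟨δ, k, hgen⟩ := exists_gen cc_unit uf_unit Q
  exact ⟨δ, hgen.lim, hgen.bot_lt, hQ δ k hgen⟩

theorem SGT {m : ℕ} {AA : Set (Fin m → W)} (hAA : ∀ g, ∃ a ∈ AA, ∀ i, g ≤ a i) {BB : Set (W × W)}
    (hle : ∀ p ∈ BB, p.1 ≤ p.2) (hBB : ∀ g, ∃ p ∈ BB, g ≤ p.1) (n : ℕ) :
    ∃ a ∈ AA, ∃ μ b : ℕ → W, (∀ j ≤ n, (μ j, b j) ∈ BB ∧ ∀ i, a i < μ j) ∧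
      ∀ i, ∀ j ≤ n, osc (a i) (b j) = osc (a i) (b 0) + j := by
  obtain ⟨k, a, μ, b, h1, h2, h3⟩ := GT (A := Unit) uf_unit (AA := {p | p.2 ∈ AA}) (by
      intro g
      apply pos_unit
      obtain ⟨a, ha, hg⟩ := hAA g
      exact ⟨a, ha, hg⟩) (BB := {p | p.2 ∈ BB}) (by
      intro k μ b h
      exact hle _ h) (by
      intro μ b
      exact isOpen_discrete _) (by
      intro O
      obtain ⟨δ, k, hgen⟩ := exists_gen cc_unit uf_unit O
      obtain ⟨p, hp, hg⟩ := hBB δ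
      exact ⟨δ, k, hgen, p.1, p.2, hg, hp⟩) n
  exact ⟨a, h1, μ, b, h2, h3⟩

theorem exists_en2 (ι κ : Type) [Countable ι] [Countable κ] [Nonempty ι] :
    ∃ en : W → ℕ → ι × List (W × κ), ∀ (d : W) (p : ι × List (W × κ)),
    (∀ g ∈ p.2, g.1 ≤ d) → ∃ n, en d n = p := by
  have h : ∀ d : W, ∃ f : ℕ → ι × List (W × κ), ∀ p : ι × List (W × κ),
    (∀ g ∈ p.2, g.1 ≤ d) → ∃ n, f n = p := by
    intro d
    have hIic : (Set.Iic d).Countable := by
      rw [← Set.Iio_insert]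
      exact (Om.countable_Iio d).insert d
    have h1 : {l : List (W × κ) | ∀ g ∈ l, g ∈ Set.Iic d ×ˢ (Set.univ : Set κ)}.Countable :=
      countable_lists (hIic.prod (Set.to_countable _))
    have h2 : ((Set.univ : Set ι) ×ˢ {l : List (W × κ) | ∀ g ∈ l,
        g ∈ Set.Iic d ×ˢ (Set.univ : Set κ)}).Countable :=
      (Set.to_countable _).prod h1
    obtain ⟨f, hf⟩ := h2.exists_eq_range ⟨(Classical.arbitrary ι, []), by simp⟩
    refine ⟨f, fun p hp3 => ?_⟩
    have : p ∈ Set.range f := by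
      rw [← hf]
      exact ⟨trivial, fun g hg => ⟨hp3 g hg, trivial⟩⟩
    exact this
  choose en hen using h
  exact ⟨en, hen⟩

end unitcase

section Lspace

variable {W : Type} [LinearOrder W] [OrderBot W] [WellFoundedLT W] [Om W]

structure Kr (z : W → UnitAddCircle) : Prop where
  ne : ∀ ξ, ∀ n : ℕ, 0 < n → n • z ξ ≠ 0
  kr : ∀ (m : ℕ) (a : Fin m → W), Function.Injective a → ∀ ε : ℝ, 0 < ε →
        ∃ N : ℕ, ∀ (c : Fin m → ℕ) (t : Fin m → UnitAddCircle),
          ∃ j ≤ N, ∀ i, ‖(c i + j + 1) • z (a i) - t i‖ < ε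

open Classical in
noncomputable def cd (ξ β : W) : ℕ := if ξ < β then osc ξ β + 1 else 0

theorem cd_eq_zero {ξ β : W} : cd ξ β = 0 ↔ β ≤ ξ := by
  unfold cd
  split_ifs with h
  · simpa using h
  · simpa using h

theorem cd_of_lt {ξ β : W} (h : ξ < β) : cd ξ β = osc ξ β + 1 := by
  unfold cd
  rw [if_pos h]

/-- the points of the space -/
noncomputable def w (z : W → UnitAddCircle) (β : W) : W → UnitAddCircle := fun ξ => cd ξ β • z ξ

theorem w_eq_zero {z : W → UnitAddCircle} (hz : Kr z) {ξ β : W} : w z β ξ = 0 ↔ β ≤ ξ := by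
  constructor
  · intro h
    by_contra h'
    have : 0 < cd ξ β := by
      rw [Nat.pos_iff_ne_zero, Ne, cd_eq_zero]
      exact h'
    exact hz.ne ξ _ this h
  · intro h
    unfold w
    rw [cd_eq_zero.2 h, zero_smul]

theorem w_injective {z : W → UnitAddCircle} (hz : Kr z) : Function.Injective (w z) := by
  intro β γ h
  apply le_antisymm
  · rw [← w_eq_zero hz (ξ := γ), h, w_eq_zero hz]
  · rw [← w_eq_zero hz (ξ := β), ← h, w_eq_zero hz]

theorem K {z : W → UnitAddCircle} (hz : Kr z) (β β' : W → W) (h1 : ∀ δ, δ ≤ β δ)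
    (h2 : ∀ δ, δ ≤ β' δ) (h3 : ∀ δ ξ, ξ < δ → cd ξ (β δ) = cd ξ (β' δ)) (s : W → Finset W)
    (n : W → ℕ) (c : W → ℕ) : ∃ δ δ', c δ = c δ' ∧ n δ = n δ' ∧ β δ < δ' ∧
      ∀ ξ ∈ s δ, ‖w z (β' δ') ξ - w z (β δ) ξ‖ < 1 / ((n δ : ℝ) + 1) := by
  classical
  let s' : W → Finset W := fun δ => insert (β δ) (s δ)
  let P : ((ℕ × ℕ × ℕ) × List (W × ℕ)) → W → W → Prop := fun D γ δ =>
    c δ = D.1.1 ∧ n δ = D.1.2.1 ∧ (∀ g ∈ D.2, cd g.1 (β δ) = g.2) ∧
      (∀ ξ ∈ s' δ, ξ ∉ D.2.map Prod.fst → γ ≤ ξ) ∧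
      ((s' δ).filter (fun ξ => ξ ∉ D.2.map Prod.fst)).card = D.1.2.2
  obtain ⟨D, hD⟩ : ∃ D, ∀ γ, ∃ δ ≥ γ, P D γ δ := by
    by_contra hcon
    push Not at hcon
    choose γ hγ using hcon
    obtain ⟨en, hen⟩ := exists_en2 (W := W) (ℕ × ℕ × ℕ) ℕ
    obtain ⟨δ, hδ, hb, hcl⟩ := closed_pt en γ
    let G : List (W × ℕ) := ((s' δ).filter (fun ξ => ξ < δ)).toList.map fun ξ => (ξ, cd ξ (β δ))
    have hGfst : ∀ ξ, ξ ∈ G.map Prod.fst ↔ ξ ∈ s' δ ∧ ξ < δ := by
      intro ξ
      simp [G]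
    let D : (ℕ × ℕ × ℕ) × List (W × ℕ) :=
      ((c δ, n δ, ((s' δ).filter (fun ξ => ξ ∉ G.map Prod.fst)).card), G)
    have hGδ : ∀ g ∈ G, g.1 < δ := by
      intro g hg
      exact ((hGfst g.1).1 (List.mem_map.2 ⟨g, hg, rfl⟩)).2
    obtain ⟨d, hd, hd'⟩ := list_bound hδ hb G Prod.fst hGδ
    obtain ⟨j, hj⟩ := hen d D fun g hg => (hd' g hg).le
    have hlt : γ D < δ := by
      rw [← hj]; exact hcl d hd j
    refine hγ D δ hlt.le ⟨rfl, rfl, ?_, ?_, rfl⟩
    · intro g hg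
      obtain ⟨ξ, -, rfl⟩ := List.mem_map.1 hg
      rfl
    · intro ξ hξ hξ'
      have : ¬ ξ < δ := fun h => hξ' ((hGfst ξ).2 ⟨hξ, h⟩)
      exact hlt.le.trans (not_lt.1 this)
  obtain ⟨⟨c₀, n₀, m⟩, G⟩ := D
  -- bound of the root
  obtain ⟨γ₀, hγ₀⟩ := bdd_range fun i : Fin G.length => (G.get i).1
  have hγ₀' : ∀ g ∈ G, g.1 < γ₀ := by
    intro g hg
    obtain ⟨i, rfl⟩ := List.get_of_mem hg
    exact hγ₀ i
  let AA₀ : Set (Fin m → W) := {a | Function.Injective a ∧ ∃ δ, c δ = c₀ ∧ n δ = n₀ ∧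
    (∀ g ∈ G, cd g.1 (β δ) = g.2) ∧ (∃ i, a i = β δ) ∧
    ∀ ξ ∈ s' δ, ξ ∈ G.map Prod.fst ∨ ∃ i, a i = ξ}
  have hAA₀ : ∀ g, ∃ a ∈ AA₀, ∀ i, g ≤ a i := by
    intro g
    obtain ⟨δ, hδ, e1, e2, e3, e4, e5⟩ := hD (max g γ₀)
    simp only at e1 e2 e3 e4 e5
    let T := (s' δ).filter (fun ξ => ξ ∉ G.map Prod.fst)
    have hT : T.card = m := e5
    have hmem : ∀ ξ ∈ T, ∃ i, T.orderEmbOfFin hT i = ξ := by
      intro ξ hξ
      have : ξ ∈ Set.range (T.orderEmbOfFin hT) := by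
        rw [Finset.range_orderEmbOfFin]
        exact hξ
      exact this
    have hβ : β δ ∈ T := by
      rw [Finset.mem_filter]
      refine ⟨Finset.mem_insert_self _ _, fun h => ?_⟩
      obtain ⟨g', hg', hg''⟩ := List.mem_map.1 h
      have h4 := hγ₀' g' hg'
      rw [hg''] at h4
      exact absurd (((le_max_right g γ₀).trans hδ).trans (h1 δ)) (not_le.2 h4)
    refine ⟨T.orderEmbOfFin hT, ⟨(T.orderEmbOfFin hT).injective, δ, e1, e2, e3, hmem _ hβ, ?_⟩, ?_⟩
    · intro ξ hξ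
      by_cases h : ξ ∈ G.map Prod.fst
      · exact Or.inl h
      · exact Or.inr (hmem ξ (Finset.mem_filter.2 ⟨hξ, h⟩))
    · intro i
      have := Finset.orderEmbOfFin_mem T hT i
      rw [Finset.mem_filter] at this
      exact (le_max_left _ _).trans (e4 _ this.1 this.2)
  -- fix the Kronecker bound
  obtain ⟨N, hN⟩ : ∃ N : ℕ, ∀ g, ∃ a ∈ AA₀, (∀ i, g ≤ a i) ∧
      ∀ (c : Fin m → ℕ) (t : Fin m → UnitAddCircle),
          ∃ j ≤ N, ∀ i, ‖(c i + j + 1) • z (a i) - t i‖ < 1 / ((n₀ : ℝ) + 1) := by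
    by_contra hcon
    push Not at hcon
    choose g hg using hcon
    obtain ⟨b, hb⟩ := bdd_range g
    obtain ⟨a, ha, hba⟩ := hAA₀ b
    obtain ⟨N, hN⟩ := hz.kr m a ha.1 (1 / ((n₀ : ℝ) + 1)) (by positivity)
    obtain ⟨c, t, hct⟩ := hg N a ha (fun i => (hb N).le.trans (hba i))
    obtain ⟨j, hj, hji⟩ := hN c t
    obtain ⟨i, hi⟩ := hct j hj
    exact absurd (hji i) (not_lt.2 hi)
  obtain ⟨a, ⟨⟨-, δ, e1, e2, e3, ⟨i₀, hi₀⟩, e5⟩, hkr⟩, μ, b, hB, hosc⟩ := SGT (W := W) (m := m)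
    (AA := {a | a ∈ AA₀ ∧ ∀ (c : Fin m → ℕ) (t : Fin m → UnitAddCircle),
          ∃ j ≤ N, ∀ i, ‖(c i + j + 1) • z (a i) - t i‖ < 1 / ((n₀ : ℝ) + 1)})
    (by
      intro g
      obtain ⟨a, ha, hga, h⟩ := hN g
      exact ⟨a, ⟨ha, h⟩, hga⟩)
    (BB := {p | ∃ δ, p.1 = δ ∧ p.2 = β' δ ∧ c δ = c₀ ∧ n δ = n₀ ∧ ∀ g ∈ G, cd g.1 (β' δ) = g.2})
    (by
      rintro p ⟨δ, hp1, hp2, -⟩
      rw [hp1, hp2]
      exact h2 _)
    (by
      intro g
      obtain ⟨δ, hδ, e1, e2, e3, -⟩ := hD (max g γ₀)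
      refine ⟨(δ, β' δ), ⟨δ, rfl, rfl, e1, e2, fun g' hg' => ?_⟩, (le_max_left _ _).trans hδ⟩
      rw [← h3 δ g'.1 ((hγ₀' g' hg').trans_le ((le_max_right _ _).trans hδ))]
      exact e3 g' hg') N
  obtain ⟨j, hj, hji⟩ := hkr (fun i => osc (a i) (b 0)) (fun i => w z (β δ) (a i))
  obtain ⟨⟨δ', e6, e7, e8, e9, e10⟩, hlt⟩ := hB j hj
  simp only at e6 e7
  refine ⟨δ, δ', e1.trans e8.symm, e2.trans e9.symm, ?_, ?_⟩
  · rw [← hi₀, ← e6]
    exact hlt i₀
  · intro ξ hξ
    rw [e2]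
    rcases e5 ξ (Finset.mem_insert_of_mem hξ) with h | ⟨i, rfl⟩
    · obtain ⟨g, hg, rfl⟩ := List.mem_map.1 h
      unfold w
      rw [e10 g hg, e3 g hg, sub_self, norm_zero]
      positivity
    · have e11 : a i < β' δ' := by
        rw [← e7]
        exact (hlt i).trans_le (by rw [e6, e7]; exact h2 δ')
      have e12 : w z (β' δ') (a i) = (osc (a i) (b 0) + j + 1) • z (a i) := by
        show cd (a i) (β' δ') • z (a i) = _
        rw [cd_of_lt e11, ← e7, hosc i j hj]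
      rw [e12]
      exact hji i

end Lspace

section count

variable {W : Type} [LinearOrder W] [OrderBot W] [WellFoundedLT W] [Om W]

/-- the tail of `osc · β` below a limit `δ` is determined by finitely much -/
theorem osc_tail {δ β : W} (hδ : ∀ g < δ, ∃ g' < δ, g < g') (hb : ⊥ < δ) (hβ : δ ≤ β) :
    ∃ x₀ < δ, ∃ G : List (W × ℕ), (∀ g ∈ G, g.1 < δ) ∧ ∀ ξ, x₀ < ξ → ξ < δ →
      osc ξ β = asc (G.map (fun p => decide (p.2 < e p.1 ξ)) ++
        (L ξ δ).map fun x => decide (e x δ < e x ξ)) := by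
  have hL : ∀ x ∈ L δ β, x < δ := L_lt hb β
  obtain ⟨γ₁, hγ₁, h1⟩ := list_bound hδ hb (L δ β) id hL
  obtain ⟨γ₂, hγ₂, h2⟩ := finite_bound hδ hb (E2 β δ hβ) (fun x hx => hx.1)
  obtain ⟨x₀, hx₀, hF2⟩ := F2 hδ (max_lt hγ₁ hγ₂)
  refine ⟨x₀, hx₀, (L δ β).map fun x => (x, e x β), ?_, ?_⟩
  · intro g hg
    obtain ⟨x, hx, rfl⟩ := List.mem_map.1 hg
    exact hL x hx
  · intro ξ h3 h4
    have h5 : L ξ β = L δ β ++ L ξ δ := by
      apply F1 β ξ δ h4.le hβ
      intro x hx y hy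
      exact ((h1 x hx).trans_le (le_max_left _ _)).trans (hF2 ξ h3 h4 y hy)
    unfold osc
    rw [h5, List.map_append, List.map_map]
    congr 2
    apply List.map_congr_left
    intro x hx
    have hx1 : x < δ := (L_lt (bot_le.trans_lt h3) δ x hx).trans h4
    have hx2 := hF2 ξ h3 h4 x hx
    have : e x δ = e x β := by
      by_contra hne
      exact absurd ((h2 x ⟨hx1, hne⟩).trans_le (le_max_right γ₁ γ₂)) (not_lt.2 hx2.le)
    rw [this]

open Classical in
noncomputable def cut (δ : W) (f : W → ℕ) : W → ℕ := fun ξ => if ξ < δ then f ξ else 0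

theorem countable_osc (δ : W) : {f : W → ℕ | ∃ β, δ ≤ β ∧ f = cut δ fun ξ => osc ξ β}.Countable := by
  classical
  induction δ using WellFoundedLT.induction with
  | _ δ ih =>
    -- general step
    have key : ∀ β, δ ≤ β → (⊥ < δ) → ∃ x₀ < δ, ∃ G : List (W × ℕ), (∀ g ∈ G, g.1 < δ) ∧
        ∀ ξ, x₀ < ξ → ξ < δ →
        osc ξ β = asc (G.map (fun p => decide (p.2 < e p.1 ξ)) ++
        (L ξ δ).map fun x => decide (e x δ < e x ξ)) := by
      intro β hβ hb
      by_cases hδ : ∀ g < δ, ∃ g' < δ, g < g'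
      · exact osc_tail hδ hb hβ
      · push Not at hδ
        obtain ⟨g, hg, h⟩ := hδ
        exact ⟨g, hg, [], by simp, fun ξ h1 h2 => absurd (h ξ h2) (not_le.2 h1)⟩
    by_cases hb : ⊥ < δ
    · let Φ : (W × ℕ) × (List (W × ℕ) × (W → ℕ)) → (W → ℕ) := fun q ξ =>
        if ξ < q.1.1 then q.2.2 ξ else if ξ = q.1.1 then q.1.2 else if ξ < δ then
          asc (q.2.1.map (fun p => decide (p.2 < e p.1 ξ)) ++
            (L ξ δ).map fun x => decide (e x δ < e x ξ)) else 0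
      have hc : (⋃ x₀ ∈ Set.Iio δ, Φ '' ((({x₀} : Set W) ×ˢ (Set.univ : Set ℕ)) ×ˢ
          ({l : List (W × ℕ) | ∀ g ∈ l, g ∈ Set.Iio δ ×ˢ (Set.univ : Set ℕ)} ×ˢ
          {f : W → ℕ | ∃ β, x₀ ≤ β ∧ f = cut x₀ fun ξ => osc ξ β}))).Countable := by
        apply (Om.countable_Iio δ).biUnion
        intro x₀ hx₀
        apply Set.Countable.image
        exact ((Set.countable_singleton x₀).prod (Set.to_countable _)).prod
          ((countable_lists ((Om.countable_Iio δ).prod (Set.to_countable _))).prod (ih x₀ hx₀))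
      refine hc.mono ?_
      rintro f ⟨β, hβ, rfl⟩
      obtain ⟨x₀, hx₀, G, hG, h⟩ := key β hβ hb
      refine Set.mem_iUnion₂.2 ⟨x₀, hx₀, ((x₀, osc x₀ β), (G, cut x₀ fun ξ => osc ξ β)),
        ⟨⟨rfl, trivial⟩, fun g hg => ⟨hG g hg, trivial⟩, β, hx₀.le.trans hβ, rfl⟩, ?_⟩
      ext ξ
      simp only [Φ, cut]
      split_ifs with h1 h2 h3 h4 h5
      · rfl
      · exact absurd (h1.trans hx₀) h2
      · rw [h3]
      · exact absurd (h3 ▸ hx₀) h4
      · exact (h ξ (lt_of_le_of_ne (not_lt.1 h1) (Ne.symm h3)) h5).symm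
      · rfl
    · refine (Set.countable_singleton (fun _ => 0 : W → ℕ)).mono ?_
      rintro f ⟨β, -, rfl⟩
      have : cut δ (fun ξ => osc ξ β) = fun _ => 0 := by
        ext ξ
        unfold cut
        rw [if_neg]
        intro h
        exact hb (bot_le.trans_lt h)
      exact this

theorem countable_cd (δ : W) : (Set.range fun β => cut δ fun ξ => cd ξ β).Countable := by
  classical
  have h1 : ((fun β => cut δ fun ξ => cd ξ β) '' Set.Iio δ).Countable :=
    (Om.countable_Iio δ).image _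
  have h2 : ((fun f : W → ℕ => cut δ fun ξ => f ξ + 1) ''
      {f : W → ℕ | ∃ β, δ ≤ β ∧ f = cut δ fun ξ => osc ξ β}).Countable :=
    (countable_osc δ).image _
  refine (h1.union h2).mono ?_
  rintro _ ⟨β, rfl⟩
  by_cases h : β < δ
  · exact Or.inl ⟨β, h, rfl⟩
  · refine Or.inr ⟨_, ⟨β, not_lt.1 h, rfl⟩, ?_⟩
    ext ξ
    simp only [cut]
    split_ifs with h1
    · rw [cd_of_lt (h1.trans_le (not_lt.1 h))]
    · rfl

end count

section space

variable {W : Type} [LinearOrder W] [OrderBot W] [WellFoundedLT W] [Om W]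
variable {z : W → UnitAddCircle} {Y : Type} [TopologicalSpace Y] {ι : Y → W}

theorem nbhd (hι : IsInducing fun y => w z (ι y)) {O : Set Y} (hO : IsOpen O) {y : Y} (hy : y ∈ O) :
    ∃ (s : Finset W) (n : ℕ), ∀ y', (∀ ξ ∈ s, ‖w z (ι y') ξ - w z (ι y) ξ‖ < 1 / ((n : ℝ) + 1)) →
      y' ∈ O := by
  obtain ⟨V, hV, rfl⟩ := hι.isOpen_iff.1 hO
  have h1 : V ∈ 𝓝 (w z (ι y)) := hV.mem_nhds hy
  rw [nhds_pi, Filter.mem_pi] at h1
  obtain ⟨I, hI, t, ht, hsub⟩ := h1
  have h2 : ∀ ξ, ∃ ε > 0, Metric.ball (w z (ι y) ξ) ε ⊆ t ξ := fun ξ => Metric.mem_nhds_iff.1 (ht ξ)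
  choose ε hε hball using h2
  obtain ⟨n, hn⟩ : ∃ n : ℕ, ∀ ξ ∈ hI.toFinset, 1 / ((n : ℝ) + 1) < ε ξ := by
    have h3 : ∀ ξ, ∃ n : ℕ, 1 / ((n : ℝ) + 1) < ε ξ := fun ξ => exists_nat_one_div_lt (hε ξ)
    choose N hN using h3
    refine ⟨hI.toFinset.sup N, fun ξ hξ => lt_of_le_of_lt ?_ (hN ξ)⟩
    apply one_div_le_one_div_of_le (by positivity)
    have : N ξ ≤ hI.toFinset.sup N := Finset.le_sup hξ
    have : (N ξ : ℝ) ≤ (hI.toFinset.sup N : ℕ) := by exact_mod_cast this
    linarith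
  refine ⟨hI.toFinset, n, fun y' hy' => ?_⟩
  apply hsub
  intro ξ hξ
  apply hball
  rw [Metric.mem_ball, dist_eq_norm]
  have hξ' : ξ ∈ hI.toFinset := by simpa using hξ
  exact (hy' ξ hξ').trans (hn ξ hξ')

theorem hl (hz : Kr z) (hinj : Function.Injective ι) (Q : Set Y) (s : Y → Finset W) (n : Y → ℕ) :
    ∃ Q₀ ⊆ Q, Q₀.Countable ∧ ∀ y ∈ Q, ∃ y' ∈ Q₀, ∀ ξ ∈ s y',
      ‖w z (ι y) ξ - w z (ι y') ξ‖ < 1 / ((n y' : ℝ) + 1) := by
  by_contra hcon
  push Not at hcon
  have h1 : ∀ δ : W, ∃ y ∈ Q, ∀ y' ∈ Q, ι y' < δ → ∃ ξ ∈ s y',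
      1 / ((n y' : ℝ) + 1) ≤ ‖w z (ι y) ξ - w z (ι y') ξ‖ := by
    intro δ
    obtain ⟨y, hy, h⟩ := hcon {y' ∈ Q | ι y' < δ} (Set.sep_subset _ _)
      (((Om.countable_Iio δ).preimage_of_injOn hinj.injOn).mono fun y hy => hy.2)
    exact ⟨y, hy, fun y' h1 h2 => h y' ⟨h1, h2⟩⟩
  choose y hyQ hy using h1
  have h2 : ∀ δ, δ ≤ ι (y δ) := by
    intro δ
    by_contra h
    obtain ⟨ξ, -, hξ⟩ := hy δ (y δ) (hyQ δ) (not_le.1 h)
    rw [sub_self, norm_zero] at hξ
    have : 0 < 1 / ((n (y δ) : ℝ) + 1) := by positivity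
    linarith
  obtain ⟨δ, δ', -, -, h3, h4⟩ := K hz (fun δ => ι (y δ)) (fun δ => ι (y δ)) h2 h2
    (fun _ _ _ => rfl) (fun δ => s (y δ)) (fun δ => n (y δ)) (fun _ => 0)
  obtain ⟨ξ, hξ, h5⟩ := hy δ' (y δ) (hyQ δ) h3
  exact absurd (h4 ξ hξ) (not_lt.2 h5)

theorem fcount (hz : Kr z) (hinj : Function.Injective ι) (hι : IsInducing fun y => w z (ι y))
    (f : ℕ → Y → ℝ) (hf : ∀ n, Continuous (f n)) :
    ∃ D : Set Y, D.Countable ∧ ∀ y, ∃ y' ∈ D, ∀ n, f n y = f n y' := by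
  classical
  obtain ⟨δ, hδ⟩ : ∃ δ : W, ∀ y y', (∀ ξ < δ, cd ξ (ι y) = cd ξ (ι y')) → ∀ n, f n y = f n y' := by
    by_contra hcon
    push Not at hcon
    choose y y' hyy n hn using hcon
    -- separate values
    have h1 : ∀ δ, ∃ p : ℚ × Bool, (if p.2 then (f (n δ) (y δ) < p.1 ∧ (p.1 : ℝ) < f (n δ) (y' δ))
        else ((p.1 : ℝ) < f (n δ) (y δ) ∧ f (n δ) (y' δ) < p.1)) := by
      intro δ
      rcases lt_or_gt_of_ne (hn δ) with h | h
      · obtain ⟨q, h1, h2⟩ := exists_rat_btwn h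
        exact ⟨(q, true), by simp [h1, h2]⟩
      · obtain ⟨q, h1, h2⟩ := exists_rat_btwn h
        exact ⟨(q, false), by simp [h1, h2]⟩
    choose p hp using h1
    have hne : ∀ δ, ι (y δ) ≠ ι (y' δ) := by
      intro δ h
      exact hn δ (by rw [hinj h])
    have h2 : ∀ δ, δ ≤ ι (y δ) := by
      intro δ
      by_contra h
      have h := not_le.1 h
      have h3 := hyy δ _ h
      rw [cd_eq_zero.2 le_rfl] at h3
      have h4 := cd_eq_zero.1 h3.symm
      have h5 := hyy δ _ (h4.trans_lt h)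
      rw [cd_eq_zero.2 (le_refl (ι (y' δ)))] at h5
      exact hne δ (le_antisymm (cd_eq_zero.1 h5) h4)
    have h2' : ∀ δ, δ ≤ ι (y' δ) := by
      intro δ
      by_contra h
      have h := not_le.1 h
      have h3 := hyy δ _ h
      rw [cd_eq_zero.2 le_rfl] at h3
      have h4 := cd_eq_zero.1 h3
      have h5 := hyy δ _ (h4.trans_lt h)
      rw [cd_eq_zero.2 (le_refl (ι (y δ)))] at h5
      exact hne δ (le_antisymm h4 (cd_eq_zero.1 h5.symm))
    -- the neighbourhoods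
    let O : W → Set Y := fun δ => if (p δ).2 then {x | f (n δ) x < (p δ).1}
      else {x | ((p δ).1 : ℝ) < f (n δ) x}
    have hO : ∀ δ, IsOpen (O δ) := by
      intro δ
      simp only [O]
      split_ifs
      · exact isOpen_lt (hf _) continuous_const
      · exact isOpen_lt continuous_const (hf _)
    have hyO : ∀ δ, y δ ∈ O δ := by
      intro δ
      have := hp δ
      simp only [O]
      split_ifs at this ⊢ with h
      · exact this.1
      · exact this.1
    have h3 : ∀ δ, ∃ (s : Finset W) (n : ℕ), ∀ x,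
        (∀ ξ ∈ s, ‖w z (ι x) ξ - w z (ι (y δ)) ξ‖ < 1 / ((n : ℝ) + 1)) → x ∈ O δ := fun δ =>
      nbhd hι (hO δ) (hyO δ)
    choose s N hsN using h3
    obtain ⟨δ, δ', hc, -, -, h4⟩ := K hz (fun δ => ι (y δ)) (fun δ => ι (y' δ)) h2 h2' hyy s N
      (fun δ => Encodable.encode (n δ, p δ))
    have hc' : (n δ, p δ) = (n δ', p δ') := Encodable.encode_injective hc
    have h5 : y' δ' ∈ O δ := by
      refine hsN δ _ fun ξ hξ => ?_
      exact h4 ξ hξ
    have hn' : n δ = n δ' := congrArg Prod.fst hc'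
    have hp' : p δ = p δ' := congrArg Prod.snd hc'
    have h6 := hp δ'
    simp only [O] at h5
    rw [hn', hp'] at h5
    split_ifs at h5 h6 with h
    · exact absurd h5 (not_lt.2 h6.2.le)
    · exact absurd h5 (not_lt.2 h6.2.le)
  -- representatives
  have h1 : (Set.range fun y => cut δ fun ξ => cd ξ (ι y)).Countable :=
    (countable_cd δ).mono (by rintro _ ⟨y, rfl⟩; exact ⟨ι y, rfl⟩)
  have h2 : ∀ g : (Set.range fun y => cut δ fun ξ => cd ξ (ι y)), ∃ y : Y,
      (cut δ fun ξ => cd ξ (ι y)) = g.1 := fun g => g.2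
  choose r hr using h2
  have hc : Countable (Set.range fun y => cut δ fun ξ => cd ξ (ι y)) := h1.to_subtype
  refine ⟨Set.range r, Set.countable_range r, fun y => ⟨r ⟨_, y, rfl⟩, ⟨_, rfl⟩, ?_⟩⟩
  apply hδ
  intro ξ hξ
  have := congrFun (hr ⟨_, y, rfl⟩) ξ
  simp only [cut, if_pos hξ] at this
  exact this.symm

end space

section root

variable {W : Type} [LinearOrder W] [OrderBot W] [WellFoundedLT W] [Om W]
variable {A : Type} [TopologicalSpace A] {U : Set (Set A)}

/-- a uniform root of finite supports -/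
theorem root (hU : UF U) {F : Set A} (hF : F ∈ U) (s : A → Finset W) (n : A → ℕ) :
    ∃ (G : Finset W) (n₀ m : ℕ), Big U {p : A × (Fin m → W) | p.1 ∈ F ∧ n p.1 = n₀ ∧
      Function.Injective p.2 ∧ ∀ ξ ∈ s p.1, ξ ∈ G ∨ ∃ i, p.2 i = ξ} := by
  classical
  let P : ((ℕ × ℕ) × List (W × Unit)) → W → Set A := fun D γ =>
    {k | k ∈ F ∧ n k = D.1.1 ∧ (∀ ξ ∈ s k, ξ ∉ D.2.map Prod.fst → γ ≤ ξ) ∧
      ((s k).filter (fun ξ => ξ ∉ D.2.map Prod.fst)).card = D.1.2}
  obtain ⟨D, hD⟩ : ∃ D, ∀ γ, Pos U (P D γ) := by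
    by_contra hcon
    push Not at hcon
    choose γ hγ using hcon
    obtain ⟨en, hen⟩ := exists_en2 (W := W) (ℕ × ℕ) Unit
    obtain ⟨δ, hδ, hb, hcl⟩ := closed_pt en γ
    have hc : Countable (Set.Iio δ) := (Om.countable_Iio δ).to_subtype
    have h1 : Pos U (⋃ q : Set.Iio δ × ℕ, P (en q.1.1 q.2) (γ (en q.1.1 q.2))) := by
      refine (hU.pos_of_mem hF).mono ?_
      intro k hk
      let G : List (W × Unit) := ((s k).filter (fun ξ => ξ < δ)).toList.map fun ξ => (ξ, ())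
      have hGfst : ∀ ξ, ξ ∈ G.map Prod.fst ↔ ξ ∈ s k ∧ ξ < δ := by
        intro ξ
        simp [G]
      let D : (ℕ × ℕ) × List (W × Unit) :=
        ((n k, ((s k).filter (fun ξ => ξ ∉ G.map Prod.fst)).card), G)
      have hGδ : ∀ g ∈ G, g.1 < δ := by
        intro g hg
        exact ((hGfst g.1).1 (List.mem_map.2 ⟨g, hg, rfl⟩)).2
      obtain ⟨d, hd, hd'⟩ := list_bound hδ hb G Prod.fst hGδ
      obtain ⟨j, hj⟩ := hen d D fun g hg => (hd' g hg).le
      refine Set.mem_iUnion.2 ⟨(⟨d, hd⟩, j), ?_⟩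
      have hlt : γ (en d j) < δ := hcl d hd j
      show k ∈ P (en d j) (γ (en d j))
      rw [hj] at hlt ⊢
      refine ⟨hk, rfl, ?_, rfl⟩
      intro ξ hξ hξ'
      have : ¬ ξ < δ := fun h => hξ' ((hGfst ξ).2 ⟨hξ, h⟩)
      exact hlt.le.trans (not_lt.1 this)
    obtain ⟨q, hq⟩ := hU.pos_iUnion h1
    exact hγ _ hq
  obtain ⟨⟨n₀, m⟩, G⟩ := D
  refine ⟨(G.map Prod.fst).toFinset, n₀, m, fun g => (hD g).mono ?_⟩
  rintro k ⟨e1, e2, e3, e4⟩
  simp only at e2 e3 e4
  let T := (s k).filter (fun ξ => ξ ∉ G.map Prod.fst)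
  have hT : T.card = m := e4
  have hmem : ∀ ξ ∈ T, ∃ i, T.orderEmbOfFin hT i = ξ := by
    intro ξ hξ
    have : ξ ∈ Set.range (T.orderEmbOfFin hT) := by
      rw [Finset.range_orderEmbOfFin]
      exact hξ
    exact this
  refine ⟨T.orderEmbOfFin hT, ⟨e1, e2, (T.orderEmbOfFin hT).injective, ?_⟩, ?_⟩
  · intro ξ hξ
    by_cases h : ξ ∈ G.map Prod.fst
    · exact Or.inl (List.mem_toFinset.2 h)
    · exact Or.inr (hmem ξ (Finset.mem_filter.2 ⟨hξ, h⟩))
  · intro i
    have := Finset.orderEmbOfFin_mem T hT i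
    rw [Finset.mem_filter] at this
    exact e3 _ this.1 this.2

end root

section main

variable {W : Type} [LinearOrder W] [OrderBot W] [WellFoundedLT W] [Om W]
variable {z : W → UnitAddCircle} {Y : Type} [TopologicalSpace Y] {ι : Y → W}

/-- the basic neighbourhood of `y` -/
def Nb (z : W → UnitAddCircle) (ι : Y → W) (s : Finset W) (n : ℕ) (y : Y) : Set Y :=
  {y' | ∀ ξ ∈ s, ‖w z (ι y') ξ - w z (ι y) ξ‖ < 1 / ((n : ℝ) + 1)}

/-- the case analysis -/
theorem no_gap (hz : Kr z) (hinj : Function.Injective ι) (hι : IsInducing fun y => w z (ι y))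
    (K : Set (Y → ℝ)) (hc : ∀ k ∈ K, Continuous k) {U : Set (Set K)} (hU : UF U)
    (g : Y → ℝ) (hg : ∀ y, {k : K | k.1 y = g y} ∈ U) {V V' : Set ℝ} (hV : IsOpen V)
    (hV' : IsOpen V') (hVV : Disjoint V V') :
    ¬ GPos U {p : W × K | ∃ y, p.2.1 y ∈ V ∧ g y ∈ V'} := by
  classical
  intro hpos
  -- the operations giving `k y = g y` for `ι y < δ`
  let O₀ : Ops W K U :=
    { f1 := fun d _ => {k : K | ∀ y, ι y = d → k.1 y = g y}
      f2 := fun _ x _ => x
      f3 := fun _ _ _ => ⊥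
      h1 := by
        intro d _
        by_cases h : ∃ y, ι y = d
        · obtain ⟨y, rfl⟩ := h
          convert hg y using 1
          ext k
          constructor
          · intro h
            exact h y rfl
          · intro h y' hy'
            rw [hinj hy']
            exact h
        · convert hU.univ_mem using 1
          ext k
          constructor
          · intro _; trivial
          · intro _ y hy
            exact absurd ⟨y, hy⟩ h }
  -- the special point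
  obtain ⟨y₀, hy₀, hyp⟩ : ∃ y₀, g y₀ ∈ V' ∧ ∀ (r : Finset W) (n : ℕ),
      GPos U {p : W × K | ∃ y ∈ Nb z ι r n y₀, p.2.1 y ∈ V ∧ g y ∈ V'} := by
    by_contra hcon
    push Not at hcon
    have h1 : ∀ y, ∃ (r : Finset W) (n : ℕ), g y ∈ V' →
        ¬ GPos U {p : W × K | ∃ y' ∈ Nb z ι r n y, p.2.1 y' ∈ V ∧ g y' ∈ V'} := by
      intro y
      by_cases h : g y ∈ V'
      · obtain ⟨r, n, h'⟩ := hcon y h
        exact ⟨r, n, fun _ => h'⟩
      · exact ⟨∅, 0, fun h' => absurd h' h⟩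
    choose r n hrn using h1
    obtain ⟨Q₀, hQ₀, hQc, hQ⟩ := hl hz hinj {y | g y ∈ V'} r n
    have hcQ : Countable Q₀ := hQc.to_subtype
    have h2 : GPos U (⋃ y : Q₀, {p : W × K | ∃ y' ∈ Nb z ι (r y.1) (n y.1) y.1,
        p.2.1 y' ∈ V ∧ g y' ∈ V'}) := by
      refine hpos.mono ?_
      rintro p ⟨y, hy1, hy2⟩
      obtain ⟨y', hy', h3⟩ := hQ y hy2
      exact Set.mem_iUnion.2 ⟨⟨y', hy'⟩, y, h3, hy1, hy2⟩
    obtain ⟨y, hy⟩ := h2.iUnion O₀
    exact hrn y.1 (hQ₀ y.2) hy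
  -- neighbourhoods for members of the filter
  have h1 : ∀ k : K, ∃ (s : Finset W) (n : ℕ), k ∈ {k : K | k.1 y₀ = g y₀} →
      ∀ y' ∈ Nb z ι s n y₀, k.1 y' ∈ V' := by
    intro k
    by_cases h : k ∈ {k : K | k.1 y₀ = g y₀}
    · have h' : k.1 y₀ = g y₀ := h
      obtain ⟨s, n, hsn⟩ := nbhd hι (hV'.preimage (hc k.1 k.2)) (y := y₀)
        (show k.1 y₀ ∈ V' by rw [h']; exact hy₀)
      exact ⟨s, n, fun _ y' hy' => hsn y' hy'⟩
    · exact ⟨∅, 0, fun h' => absurd h' h⟩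
  choose s n hsn using h1
  obtain ⟨G, n₀, m, hbig⟩ := root hU (hg y₀) s n
  obtain ⟨N, hN⟩ := hbig.split hU (fun N : ℕ => {p : K × (Fin m → W) |
      ∀ (c : Fin m → ℕ) (t : Fin m → UnitAddCircle),
        ∃ j ≤ N, ∀ i, ‖(c i + j + 1) • z (p.2 i) - t i‖ < 1 / ((n₀ : ℝ) + 1)}) ⊥ (by
    rintro p ⟨-, -, h3, -⟩ -
    exact hz.kr m p.2 h3 (1 / ((n₀ : ℝ) + 1)) (by positivity))
  obtain ⟨k, a, μ, b, ⟨⟨e1, e2, e3, e4⟩, hkr⟩, hB, hosc⟩ := GT hU hN
    (BB := {q : K × W × W | q.2.1 = q.2.2 ∧ ∃ y, ι y = q.2.2 ∧ y ∈ Nb z ι G n₀ y₀ ∧ q.1.1 y ∈ V})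
    (by
      rintro k μ b ⟨h, -⟩
      exact h.le)
    (by
      intro μ b
      by_cases h : μ = b
      · have : {k : K | (k, μ, b) ∈ {q : K × W × W | q.2.1 = q.2.2 ∧ ∃ y, ι y = q.2.2 ∧
            y ∈ Nb z ι G n₀ y₀ ∧ q.1.1 y ∈ V}} =
            ⋃ y ∈ {y | ι y = b ∧ y ∈ Nb z ι G n₀ y₀}, {k : K | k.1 y ∈ V} := by
          ext k
          simp only [Set.mem_ofPred_eq, Set.mem_iUnion, exists_prop]
          constructor
          · rintro ⟨-, y, h1, h2, h3⟩
            exact ⟨y, ⟨h1, h2⟩, h3⟩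
          · rintro ⟨y, ⟨h1, h2⟩, h3⟩
            exact ⟨h, y, h1, h2, h3⟩
        rw [this]
        exact isOpen_biUnion fun y _ => hV.preimage ((continuous_apply y).comp continuous_subtype_val)
      · convert isOpen_empty (X := K)
        ext k
        simp only [Set.mem_ofPred_eq, Set.mem_empty_iff_false, iff_false]
        rintro ⟨h', -⟩
        exact h h')
    (by
      refine ((hyp G n₀).inter_gen O₀).mono ?_
      rintro ⟨δ, k⟩ ⟨⟨y, hy1, hy2, hy3⟩, hgen⟩
      refine ⟨ι y, ι y, ?_, rfl, y, rfl, hy1, hy2⟩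
      by_contra hlt
      have h2 := hgen.mem hU (not_le.1 hlt) 0
      have h3 : k.1 y = g y := h2 y rfl
      have h4 : k.1 y ∈ V := hy2
      rw [h3] at h4
      exact Set.disjoint_left.1 hVV h4 hy3) N
  simp only at e1 e2 e3 e4
  obtain ⟨j, hj, hji⟩ := hkr (fun i => osc (a i) (b 0)) (fun i => w z (ι y₀) (a i))
  obtain ⟨⟨e5, y, e6, e7, e8⟩, hlt⟩ := hB j hj
  simp only at e5 e6 e8
  have hy : k.1 y ∈ V' := by
    apply hsn k e1 y
    intro ξ hξ
    rw [e2]
    rcases e4 ξ hξ with h | ⟨i, rfl⟩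
    · exact e7 ξ h
    · have e11 : a i < b j := by
        rw [← e5]
        exact hlt i
      have e12 : w z (ι y) (a i) = (osc (a i) (b 0) + j + 1) • z (a i) := by
        show cd (a i) (ι y) • z (a i) = _
        rw [e6, cd_of_lt e11, hosc i j hj]
      rw [e12]
      exact hji i
  exact Set.disjoint_left.1 hVV e8 hy

end main

section main

variable {W : Type} [LinearOrder W] [OrderBot W] [WellFoundedLT W] [Om W]
variable {z : W → UnitAddCircle} {Y : Type} [TopologicalSpace Y] {ι : Y → W}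

theorem closed_of (hz : Kr z) (hinj : Function.Injective ι) (hι : IsInducing fun y => w z (ι y))
    (K : Set (Y → ℝ)) (hc : ∀ k ∈ K, Continuous k) (hK : CC K) : IsClosed K := by
  classical
  rw [← closure_subset_iff_isClosed]
  intro g hg
  by_contra hgK
  have happ : ∀ T : Set Y, T.Countable → ∃ k : K, ∀ y ∈ T, k.1 y = g y := by
    intro T hT
    obtain ⟨k, -, hk⟩ := countable_approx (Z := K) (X := Y) (e := fun k : K => k.1) (A := Set.univ)
      continuous_subtype_val (fun x _ => hK x) (g := g) (by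
        rw [Set.image_univ]
        convert hg using 2
        exact Subtype.range_coe) hT
    exact ⟨k, hk⟩
  have hclosed : ∀ y, IsClosed {k : K | k.1 y = g y} := fun y =>
    isClosed_eq ((continuous_apply y).comp continuous_subtype_val) continuous_const
  obtain ⟨U, hVU, hU⟩ := exists_UF hK {F | ∃ y, F = {k : K | k.1 y = g y}} (by
    rintro F ⟨y, rfl⟩ S hS -
    exact closure_minimal hS (hclosed y)) (by
    intro s hs
    have h1 : ∀ F : s, ∃ y, F.1 = {k : K | k.1 y = g y} := fun F => hs F.2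
    choose y hy using h1
    obtain ⟨k, hk⟩ := happ (Set.range y) (Set.countable_range y)
    refine ⟨k, fun F hF => ?_⟩
    have := hy ⟨F, hF⟩
    simp only at this
    rw [this]
    exact hk _ ⟨⟨F, hF⟩, rfl⟩)
  have hgU : ∀ y, {k : K | k.1 y = g y} ∈ U := fun y => hVU ⟨y, rfl⟩
  have hpos : GPos U (⋃ q : ℚ × Bool, {p : W × K | ∃ y, p.2.1 y ∈
      (if q.2 then Set.Iio (q.1 : ℝ) else Set.Ioi (q.1 : ℝ)) ∧ g y ∈
      (if q.2 then Set.Ioi (q.1 : ℝ) else Set.Iio (q.1 : ℝ))}) := by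
    intro O
    obtain ⟨δ, k, hk⟩ := exists_gen hK hU O
    refine ⟨δ, k, hk, ?_⟩
    have hne : k.1 ≠ g := fun h => hgK (h ▸ k.2)
    obtain ⟨y, hy⟩ := Function.ne_iff.1 hne
    rcases lt_or_gt_of_ne hy with h | h
    · obtain ⟨q, h1, h2⟩ := exists_rat_btwn h
      exact Set.mem_iUnion.2 ⟨(q, true), y, by simpa using h1, by simpa using h2⟩
    · obtain ⟨q, h1, h2⟩ := exists_rat_btwn h
      exact Set.mem_iUnion.2 ⟨(q, false), y, by simpa using h2, by simpa using h1⟩
  obtain ⟨⟨q, b⟩, hq⟩ := hpos.iUnion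
    ⟨fun _ _ => Set.univ, fun _ x _ => x, fun _ _ _ => ⊥, fun _ _ => hU.univ_mem⟩
  refine no_gap hz hinj hι K hc hU g hgU (V := if b then Set.Iio (q : ℝ) else Set.Ioi (q : ℝ))
    (V' := if b then Set.Ioi (q : ℝ) else Set.Iio (q : ℝ)) ?_ ?_ ?_ hq
  · split_ifs
    · exact isOpen_Iio
    · exact isOpen_Ioi
  · split_ifs
    · exact isOpen_Ioi
    · exact isOpen_Iio
  · split_ifs
    · exact Set.disjoint_left.2 fun x h1 h2 => lt_asymm (Set.mem_Iio.1 h1) (Set.mem_Ioi.1 h2)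
    · exact Set.disjoint_left.2 fun x h1 h2 => lt_asymm (Set.mem_Ioi.1 h1) (Set.mem_Iio.1 h2)

theorem groth (hz : Kr z) (hinj : Function.Injective ι) (hι : IsInducing fun y => w z (ι y)) :
    Grothendieck Y := by
  classical
  intro S A hA
  have hseq := exists_mapClusterPt hA
  let ev : S → Y → ℝ := fun f => f.1.1
  have he : IsInducing ev := IsInducing.subtypeVal.comp IsInducing.subtypeVal
  refine isCompact_closure_of he hseq ?_
  -- closures of countable sets
  have hcount : ∀ T ⊆ ev '' A, T.Countable → closure T ⊆ Set.range ev := by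
    intro T hT hTc g hg
    have hne : T.Nonempty := by
      rw [← closure_nonempty_iff]; exact ⟨g, hg⟩
    obtain ⟨t, ht⟩ := hTc.exists_eq_range hne
    have h1 : ∀ n, ∃ f ∈ A, ev f = t n := fun n => hT (by rw [ht]; exact ⟨n, rfl⟩)
    choose f hfA hft using h1
    obtain ⟨D, hDc, hD⟩ := fcount hz hinj hι (fun n => ev (f n)) (fun n => (f n).1.2)
    obtain ⟨x, hx, hxg⟩ := countable_approx (A := Set.range f) he.continuous
      (fun u hu => hseq u fun n => by
        obtain ⟨j, hj⟩ := hu n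
        rw [← hj]; exact hfA j) (g := g) (by
        have : ev '' Set.range f = T := by
          rw [ht, ← Set.range_comp]
          congr 1
          funext n
          exact hft n
        rw [this]
        exact hg) hDc
    refine ⟨x, funext fun y => ?_⟩
    obtain ⟨y', hy', hyy⟩ := hD y
    have h2 : ∀ h ∈ closure T, h y = h y' := by
      intro h hh
      have hcl : IsClosed {h : Y → ℝ | h y = h y'} :=
        isClosed_eq (continuous_apply y) (continuous_apply y')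
      refine (closure_minimal ?_ hcl) hh
      rw [ht]
      rintro _ ⟨n, rfl⟩
      show t n y = t n y'
      rw [← hft n]
      exact hyy n
    have h3 : ev x ∈ closure T := by
      have : ev x ∈ closure (ev '' Set.range f) := by
        apply image_closure_subset_closure_image he.continuous
        exact ⟨x, hx, rfl⟩
      convert this using 2
      rw [ht, ← Set.range_comp]
      congr 1
      funext n
      exact (hft n).symm
    rw [h2 _ h3, h2 _ hg]
    exact hxg y' hy'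
  let K : Set (Y → ℝ) := omcl (ev '' A)
  have hKr : K ⊆ Set.range ev := by
    rintro g ⟨T, hT, hTc, hg⟩
    exact hcount T hT hTc hg
  have hKc : ∀ k ∈ K, Continuous k := by
    intro k hk
    obtain ⟨f, rfl⟩ := hKr hk
    exact f.1.2
  choose M hM using fun x : Y => bounded he.continuous hseq x
  have hcomp : IsCompact (Set.univ.pi fun x : Y => Set.Icc (-(M x)) (M x)) :=
    isCompact_univ_pi fun x => isCompact_Icc
  have hbd : closure (ev '' A) ⊆ Set.univ.pi fun x : Y => Set.Icc (-(M x)) (M x) := by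
    refine closure_minimal ?_ hcomp.isClosed
    rintro _ ⟨f, hf, rfl⟩ x _
    exact abs_le.1 (hM x f hf)
  have hKCC : CC K := by
    intro x
    have h1 : ∀ n, ∃ T ⊆ ev '' A, T.Countable ∧ (x n).1 ∈ closure T := fun n => (x n).2
    choose T hT hTc hxT using h1
    have h2 : (⋃ n, T n) ⊆ ev '' A := Set.iUnion_subset hT
    have h3 : (⋃ n, T n).Countable := Set.countable_iUnion hTc
    have h4 : IsCompact (closure (⋃ n, T n)) :=
      hcomp.of_isClosed_subset isClosed_closure ((closure_mono h2).trans hbd)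
    have h5 : ∀ n, (x n).1 ∈ closure (⋃ n, T n) := fun n =>
      closure_mono (Set.subset_iUnion T n) (hxT n)
    obtain ⟨g, hg, hcl⟩ := h4 (f := map (fun n => (x n).1) atTop)
      (tendsto_principal.2 (Eventually.of_forall h5))
    have hgK : g ∈ K := ⟨_, h2, h3, hg⟩
    refine ⟨⟨g, hgK⟩, ?_⟩
    rw [mapClusterPt_iff_frequently]
    intro s hs
    rw [nhds_subtype_eq_comap, Filter.mem_comap] at hs
    obtain ⟨t, ht, hts⟩ := hs
    have hcl' : MapClusterPt g atTop (fun n => (x n).1) := hcl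
    rw [mapClusterPt_iff_frequently] at hcl'
    exact (hcl' t ht).mono fun n hn => hts hn
  have hKcl : IsClosed K := closed_of hz hinj hι K hKc hKCC
  exact (closure_minimal (subset_omcl _) hKcl).trans hKr

end main

open Cardinal

theorem exists_W : ∃ (W : Type) (_ : LinearOrder W) (_ : OrderBot W) (_ : WellFoundedLT W),
    Om W ∧ #W ≤ 𝔠 := by
  let W := (ℵ₁ : Cardinal.{0}).ord.ToType
  have hW : #W = ℵ₁ := mk_ord_toType _
  have hne : Nonempty W := by
    rw [← mk_ne_zero_iff, hW]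
    exact (aleph_pos 1).ne'
  let hbot : OrderBot W := WellFoundedLT.toOrderBot W
  have hcI : ∀ b : W, (Set.Iio b).Countable := fun b =>
    (countable_iff_lt_aleph_one _).2 (mk_Iio_toType_ord_lt b)
  refine ⟨W, inferInstance, hbot, inferInstance, ⟨hcI, ?_⟩, ?_⟩
  · intro S hS
    by_contra hcon
    push Not at hcon
    have h1 : (Set.univ : Set W).Countable := by
      refine (hS.biUnion (t := fun x _ => Set.Iic x) fun x _ => ?_).mono ?_
      · rw [← Set.Iio_insert]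
        exact (hcI x).insert x
      · intro b _
        obtain ⟨x, hx, hbx⟩ := hcon b
        exact Set.mem_iUnion₂.2 ⟨x, hx, hbx⟩
    have h2 := (countable_iff_lt_aleph_one _).1 h1
    rw [mk_univ, hW] at h2
    exact lt_irrefl _ h2
  · rw [hW]
    exact aleph_one_le_continuum

/-- There is (in ZFC) a Tychonoff space all of whose subspaces are Grothendieck and which is not
hereditarily separable. -/
theorem result : ∃ (X : Type) (_ : TopologicalSpace X), T35Space X ∧ HereditarilyGrothendieck X ∧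
    ¬ HereditarilySeparable X := by
  obtain ⟨W, i1, i2, i3, i4, hW⟩ := exists_W
  obtain ⟨z, hz1, hz2⟩ := kron W hW
  have hz : Kr z := ⟨hz1, hz2⟩
  refine ⟨Set.range (w z), inferInstance, inferInstance, ?_, ?_⟩
  · intro S
    have h1 : ∀ y : S, ∃ β, w z β = y.1.1 := fun y => y.1.2
    choose ι hι using h1
    refine groth hz (ι := ι) ?_ ?_
    · intro y y' h
      apply Subtype.ext
      apply Subtype.ext
      rw [← hι y, h, hι y']
    · have : (fun y => w z (ι y)) = fun y : S => y.1.1 := funext hι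
      rw [this]
      exact IsInducing.subtypeVal.comp IsInducing.subtypeVal
  · intro hsep
    have := hsep Set.univ
    obtain ⟨D, hDc, hDd⟩ := TopologicalSpace.exists_countable_dense (Set.univ : Set (Set.range (w z)))
    have h1 : ∀ y : (Set.univ : Set (Set.range (w z))), ∃ β, w z β = y.1.1 := fun y => y.1.2
    choose ι hι using h1
    obtain ⟨δ, hδ⟩ := Om.bdd (ι '' D) (hDc.image _)
    obtain ⟨β, hβ⟩ := Om.bdd {δ} (Set.countable_singleton _)
    have hopen : IsOpen {x : (Set.univ : Set (Set.range (w z))) | x.1.1 δ ≠ 0} := by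
      have : Continuous fun x : (Set.univ : Set (Set.range (w z))) => x.1.1 δ :=
        (continuous_apply δ).comp (continuous_subtype_val.comp continuous_subtype_val)
      exact isOpen_ne.preimage this
    obtain ⟨d, hd, hdD⟩ := hDd.inter_open_nonempty _ hopen
      ⟨⟨⟨w z β, β, rfl⟩, trivial⟩, by
        show w z β δ ≠ 0
        rw [Ne, w_eq_zero hz]
        exact not_le.2 (hβ δ rfl)⟩
    apply hd
    rw [← hι d, w_eq_zero hz]
    exact (hδ _ ⟨d, hdD, rfl⟩).le

end Pool.Agent.Results.MP_b9a716_gt.MooreLSpace
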